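import Pool.Agent.N402.MF21.Coef

/-!
The modularity of the curve `21a1`: the form of level 21 is an eigenform with the eigenvalues of the
curve, and its integral symbol.
-/

set_option autoImplicit false

open UpperHalfPlane MatrixGroups CongruenceSubgroup Filter Topology
open scoped ModularForm Pointwise

namespace Pool.Agent.N402.MF21

open Pool.Agent.W97.TW
open Pool.Agent.W97.MT (qq qq_ne norm_qq norm_qq_lt im_mul z_ne H_open Q_ne Q_ne_pow
  QV iI iI_pos iI_gt iI_eventually tendsto_qq eq_or_eq_neg tpi_ne hasDerivAt_qq const_of_deriv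
  line_im line_re cusp_expansion Rep RepC num exists_qq qParam_one affCount ap)
open Pool.Agent.N974.MF (Tr Hor four_dvd)
open Pool.Agent.N974.Gen (E21 Param Eigen II F)

/-- the coefficients of the form and of the curve -/
theorem coef_eq {Ξ P : PowerSeries ℤ} (rΞ : Rep xi Ξ)
    (rF : Rep (cuspFunction 1 f21) (PowerSeries.X * P)) (tΞ : Tr Ξ lxi) (tP : Tr P lphi)
    (hq : qExpansion 1 f21 = PowerSeries.map (Int.castRingHom ℂ) (PowerSeries.X * P))
    {l : ℕ} (hl : l.Prime) : PowerSeries.coeff (l - 1) P = ap E21 l := by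
  have hP0 : PowerSeries.coeff 0 P = 1 := by
    rw [tP 0 (by norm_num)]; rfl
  by_cases l2 : l = 2
  · subst l2
    rw [tP 1 (by norm_num), N974.Gen.ap21_2]; rfl
  by_cases l3 : l = 3
  · subst l3
    rw [tP 2 (by norm_num), N974.Gen.ap21_3]; rfl
  by_cases l7 : l = 7
  · subst l7
    rw [tP 6 (by norm_num), N974.Gen.ap21_7]; rfl
  obtain ⟨L, Op, Om, hOp, hOm, g2, g3, hL⟩ := Pool.Agent.N975.LatGen.lat21
  have hp := param21 L g2 g3
  have hsq : Squarefree 21 := by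
    rw [show (21 : ℕ) = 3 * 7 by norm_num, Nat.squarefree_mul (by norm_num)]
    exact ⟨Nat.prime_three.squarefree, (by norm_num : Nat.Prime 7).squarefree⟩
  obtain ⟨A, hA⟩ : ∃ A : ℤ, A = PowerSeries.coeff (l - 1) P := ⟨_, rfl⟩
  rw [← hA]
  obtain ⟨i1, i0⟩ := N974.Gen.II_value hp tends0
  obtain ⟨i2, -, i4⟩ := (N974.Gen.tors21 L g2 g3 i1).1 i0
  have hH : ∀ z : ℍ, Pool.Agent.W97.MT.hecke 21 l f21 z = (A : ℂ) * f21 z := fun z => by
    have h6 : Pool.Agent.W97.MT.hecke 21 l f21 z = heckeT 21 2 l f21 z := by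
      unfold Pool.Agent.W97.MT.hecke heckeT
      norm_num
    rw [h6, hA]
    exact hecke_f21 hq hP0 hl z
  -- the bound
  have hb : |A| ≤ l + 1 := by
    have h1 := Pool.Agent.W97.MT.hsup 21 f21 (f21_ne hq hP0) l hl A hH
    rw [Complex.norm_intCast] at h1
    exact_mod_cast h1
  -- modulo l
  have hmod : (l : ℤ) ∣ A - ap E21 l := by
    have h1 := coeff_mod rΞ rF tΞ tP hl l2
    rw [← hA] at h1
    have h2 := (ZMod.intCast_eq_intCast_iff_dvd_sub _ _ _).1 h1
    have h3 := (dvd_neg (α := ℤ)).2 h2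
    rwa [neg_sub] at h3
  -- modulo 4
  have hl21 : ¬ l ∣ 21 := by
    intro h
    have h1 : l ∣ 3 * 7 := by simpa using h
    rcases (Nat.Prime.dvd_mul hl).1 h1 with h2 | h2
    · exact l3 ((Nat.prime_dvd_prime_iff_eq hl Nat.prime_three).1 h2)
    · exact l7 ((Nat.prime_dvd_prime_iff_eq hl (by norm_num)).1 h2)
  have h4A : (4 : ℤ) ∣ l + 1 - A := by
    apply four_dvd L (II f21 0) i2 i4
    have h1 := N974.Gen.II_hecke f21 hl hH 0
    rw [if_neg hl21, mul_zero] at h1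
    have h2 : ∀ b ∈ Finset.range l, II f21 (((0 : ℚ) + b) / l) - II f21 0 ∈ L.lattice := by
      intro b _
      have hden : ((((0 : ℚ) + b) / l : ℚ).den : ℤ) ∣ l := by
        have := Rat.den_dvd (b : ℤ) (l : ℤ)
        rw [zero_add]
        rwa [Rat.divInt_eq_div, Int.cast_natCast, Int.cast_natCast] at this
      refine N974.Gen.II_class hp hsq ?_
      have hden' : (((0 : ℚ) + b) / l : ℚ).den ∣ l := by exact_mod_cast hden
      have hc : Nat.Coprime (((0 : ℚ) + b) / l : ℚ).den 21 :=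
        Nat.Coprime.coprime_dvd_left hden' ((Nat.Prime.coprime_iff_not_dvd hl).2 hl21)
      rw [hc]
      rfl
    have h3 := sum_mem h2
    rw [Finset.sum_sub_distrib, Finset.sum_const, Finset.card_range, nsmul_eq_mul] at h3
    have h4 : ((l + 1 - A : ℤ) : ℂ) * II f21 0 =
        -((∑ b ∈ Finset.range l, II f21 (((0 : ℚ) + b) / l)) - (l : ℂ) * II f21 0) := by
      push_cast at h1 ⊢
      linear_combination (-1 : ℂ) * h1
    rw [h4]
    exact neg_mem h3
  have h4E : (4 : ℤ) ∣ l + 1 - ap E21 l := by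
    have h1 := four21 l hl l2 l3 l7
    have h2 : ((4 : ℕ) : ℤ) ∣ ((affCount E21 l + 1 : ℕ) : ℤ) := Int.natCast_dvd_natCast.2 h1
    unfold ap
    push_cast at h2
    convert h2 using 1
    ring
  have h4 : (4 : ℤ) ∣ A - ap E21 l := by omega
  have hl5 : 5 ≤ l := by
    by_contra hcon
    push Not at hcon
    interval_cases l <;> first | exact l2 rfl | exact l3 rfl | (revert hl; decide)
  have hE : |ap E21 l| ≤ l := by
    have h1 := good21' l hl
    have h5 : (5 : ℝ) ≤ l := by exact_mod_cast hl5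
    have h2 : 2 * Real.sqrt l ≤ l := by
      have h3 : Real.sqrt l ^ 2 = l := Real.sq_sqrt (by positivity)
      have h4 : 2 ≤ Real.sqrt l := Real.le_sqrt_of_sq_le (by linarith)
      nlinarith [Real.sqrt_nonneg (l : ℝ)]
    have h3 : |((ap E21 l : ℤ) : ℝ)| ≤ l := h1.trans h2
    exact_mod_cast h3
  have hcop : IsCoprime (4 : ℤ) (l : ℤ) := by
    have h1 : Nat.Coprime 4 l := by
      rw [show 4 = 2 * 2 by norm_num]
      have := (Nat.coprime_primes Nat.prime_two hl).2 (Ne.symm l2)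
      exact Nat.Coprime.mul_left this this
    exact_mod_cast Nat.isCoprime_iff_coprime.2 h1
  obtain ⟨k, hk⟩ := hcop.mul_dvd h4 hmod
  have hA' := abs_le.1 hb
  have hE' := abs_le.1 hE
  have hl2 : 2 ≤ l := hl.two_le
  have hk0 : k = 0 := by
    have h1 : |A - ap E21 l| < 4 * l := by
      rw [abs_lt]
      constructor <;> [linarith [hA'.1, hE'.2]; linarith [hA'.2, hE'.1]]
    rw [hk, abs_mul, abs_of_pos (by positivity : (0 : ℤ) < 4 * l)] at h1
    have h2 : |k| < 1 := by nlinarith [abs_nonneg k]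
    exact Int.abs_lt_one_iff.1 h2
  rw [hk0, mul_zero] at hk
  linarith

/-- **modularity of `21a1`** -/
theorem eigen21 : Eigen f21 (fun p => ap E21 p) := by
  obtain ⟨Ξ, P, rΞ, tΞ, tP, rF, hq⟩ := data
  have hP0 : PowerSeries.coeff 0 P = 1 := by
    rw [tP 0 (by norm_num)]; rfl
  refine ⟨coeff_one hq hP0, fun p hp z => ?_, fun p hp _ => good21' p hp, fun p hp h => ?_⟩
  · rw [hecke_f21 hq hP0 hp z, coef_eq rΞ rF tΞ tP hq hp]
  · have h1 : p = 3 ∨ p = 7 := by
      have h1 : p ∣ 3 * 7 := by simpa using h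
      rcases (Nat.Prime.dvd_mul hp).1 h1 with h2 | h2
      · exact Or.inl ((Nat.prime_dvd_prime_iff_eq hp Nat.prime_three).1 h2)
      · exact Or.inr ((Nat.prime_dvd_prime_iff_eq hp (by norm_num)).1 h2)
    rcases h1 with rfl | rfl
    · rw [N974.Gen.ap21_3]; norm_num
    · rw [N974.Gen.ap21_7]; norm_num

/-- the Fricke involution -/
theorem fricke21 {z : ℂ} (hz : 0 < z.im) : ff (-1 / (21 * z)) = -(21 * z ^ 2) * ff z := by
  have h := ff_m21 hz
  have h0 := z_ne hz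
  unfold m21 j21 at h
  have h1 : (21 * z ^ 2 : ℂ) ≠ 0 := mul_ne_zero (by norm_num) (pow_ne_zero 2 h0)
  rw [← div_eq_mul_inv, div_eq_iff h1] at h
  rw [h]
  ring

theorem hW21 : ∃ ε : ℂ, (ε = 1 ∨ ε = -1) ∧ ∃ p, ∀ z : ℂ, 0 < z.im →
    F f21 (-1 / (21 * z)) = ε * F f21 z + p := by
  refine ⟨-1, Or.inr rfl, ?_⟩
  obtain ⟨p, hp⟩ := N974.Gen.F_mob (f := f21) (A := 0) (B := -1) (C := 21) (D := 0) (by norm_num)
    (ε := -1) (fun z hz => by
      have h1 := fricke21 hz
      have h2 := w21_pos hz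
      have e : (((0 : ℝ) : ℂ) * z + ((-1 : ℝ) : ℂ)) / (((21 : ℝ) : ℂ) * z + ((0 : ℝ) : ℂ)) =
          -1 / (21 * z) := by push_cast; congr 1 <;> ring
      rw [e, gff h2, gff hz, h1]
      push_cast
      ring)
  refine ⟨p, fun z hz => ?_⟩
  rw [← hp z hz]
  congr 1
  push_cast
  congr 1 <;> ring

/-- the involution at `3` -/
theorem al3 {z : ℂ} (hz : 0 < z.im) : 0 < ((9 * z - 4) / (21 * z - 9) : ℂ).im ∧
    ff ((9 * z - 4) / (21 * z - 9)) * 3 = -(21 * z - 9) ^ 2 * ff z := by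
  have h1 := ff_m3 z hz
  have hm := w3_pos hz
  have h0 := w3_aux hz
  have h2 := ff_gamma (a := 10) (b := -1) (c := 1) (d := -2) (by norm_num) (map3.pos z hz)
  have h3 := (G_gamma (a := 10) (b := -1) (c := 1) (d := -2) (by norm_num) (map3.pos z hz)).1
  have h6 : (21 * z - 6 : ℂ) ≠ 0 := by
    rw [show (21 * z - 6 : ℂ) = 3 * (7 * z - 2) by ring]
    exact mul_ne_zero (by norm_num) h0
  have h9 : (21 * z - 9 : ℂ) ≠ 0 := by
    intro h
    have := congrArg Complex.im h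
    simp at this
    exact hz.ne' this
  have e1 : ((10 : ℤ) : ℂ) * m3 z + ((-1 : ℤ) : ℂ) = (9 * z - 4) / (21 * z - 6) := by
    unfold m3
    push_cast
    rw [eq_div_iff h6, add_mul, mul_assoc, div_mul_cancel₀ _ h6]
    ring
  have e2 : 21 * ((1 : ℤ) : ℂ) * m3 z + ((-2 : ℤ) : ℂ) = (21 * z - 9) / (21 * z - 6) := by
    unfold m3
    push_cast
    rw [eq_div_iff h6, add_mul, mul_assoc, div_mul_cancel₀ _ h6]
    ring
  rw [e1, e2, div_div_div_cancel_right₀ h6] at h2 h3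
  refine ⟨h3, ?_⟩
  rw [h2]
  unfold j3 at h1
  have h7 : ff (m3 z) = -ff z * (3 * (7 * z - 2) ^ 2) := by
    rw [← h1]
    field_simp
  rw [h7, show (21 * z - 6 : ℂ) = 3 * (7 * z - 2) by ring]
  have key : ∀ a u x : ℂ, u ≠ 0 → (a / (3 * u)) ^ 2 * (-x * (3 * u ^ 2)) * 3 = -a ^ 2 * x := by
    intro a u x hu
    field_simp
  exact key _ _ _ h0

theorem hW3 : ∃ ε : ℂ, (ε = 1 ∨ ε = -1) ∧ ∃ p, ∀ z : ℂ, 0 < z.im →
    F f21 ((9 * z - 4) / (21 * z - 9)) = ε * F f21 z + p := by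
  refine ⟨-1, Or.inr rfl, ?_⟩
  obtain ⟨p, hp⟩ := N974.Gen.F_mob (f := f21) (A := 9) (B := -4) (C := 21) (D := -9) (by norm_num)
    (ε := -1) (fun z hz => by
      obtain ⟨h2, h1⟩ := al3 hz
      have e : (((9 : ℝ) : ℂ) * z + ((-4 : ℝ) : ℂ)) / (((21 : ℝ) : ℂ) * z + ((-9 : ℝ) : ℂ)) =
          (9 * z - 4) / (21 * z - 9) := by push_cast; congr 1
      rw [e, gff h2, gff hz]
      push_cast
      linear_combination h1)
  refine ⟨p, fun z hz => ?_⟩
  rw [← hp z hz]
  congr 1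
  push_cast
  congr 1

/-- the integral symbol of level `21` -/
theorem symb21 : ∃ (s : ℚ → ℤ) (κ : ℝ), 0 < κ ∧ (∀ r : ℚ, (II f21 r).im = κ * s r) ∧
    N974.Gen.Symb21 s (fun p => ap E21 p) :=
  N974.Gen.exists_symb21 eigen21 param21 tends0 tends7 tends3 hW21 hW3

end Pool.Agent.N402.MF21
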