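import Pool.Agent.N402.MF21.Eta
import Pool.Agent.W97.MT.AL

/-!
The Atkin-Lehner transformations of the eta quotients on `X_0(21)`.
-/

set_option autoImplicit false

open UpperHalfPlane MatrixGroups CongruenceSubgroup Filter Topology
open scoped ModularForm Pointwise

namespace Pool.Agent.N402.MF21

open Pool.Agent.W97.TW
open Pool.Agent.W97.MT (qq tt tt_ne qq_ne tt_pow norm_qq norm_qq_lt eta_mul eta_one G_mul Q_ne
  Q_ne_pow G_ne im_mul ze_dvd I4 z_ne)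

lemma ze12k (k : ℤ) : ze ^ (12 * k) = 1 := by
  rw [zpow_mul, ze_12, one_zpow]

lemma Gs_nes {z : ℂ} (hz : 0 < z.im) : G z ≠ 0 ∧ G (3 * z) ≠ 0 ∧ G (7 * z) ≠ 0 ∧
    G (21 * z) ≠ 0 := by
  have h3 := G_ne (im_mul hz 3 (by norm_num))
  have h7 := G_ne (im_mul hz 7 (by norm_num))
  have h21 := G_ne (im_mul hz 21 (by norm_num))
  push_cast at h3 h7 h21
  exact ⟨G_ne hz, h3, h7, h21⟩

lemma W_ne {z : ℂ} (hz : 0 < z.im) : W z ≠ 0 := by
  obtain ⟨n1, n3, n7, n21⟩ := Gs_nes hz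
  unfold W Gs
  exact mul_ne_zero (mul_ne_zero (mul_ne_zero (zpow_ne_zero _ n1) (zpow_ne_zero _ n3))
    (zpow_ne_zero _ n7)) (zpow_ne_zero _ n21)

lemma U_ne {z : ℂ} (hz : 0 < z.im) : U z ≠ 0 := by
  obtain ⟨n1, n3, n7, n21⟩ := Gs_nes hz
  unfold U Gs
  exact mul_ne_zero (mul_ne_zero (mul_ne_zero (zpow_ne_zero _ n1) (zpow_ne_zero _ n3))
    (zpow_ne_zero _ n7)) (zpow_ne_zero _ n21)

lemma X1_ne {z : ℂ} (hz : 0 < z.im) : X1 z ≠ 0 := by
  obtain ⟨n1, n3, n7, n21⟩ := Gs_nes hz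
  intro h
  have h1 : X1 z ^ 2 = 0 := by rw [h]; ring
  rw [X1_sq] at h1
  unfold Gs at h1
  exact mul_ne_zero (mul_ne_zero (mul_ne_zero (zpow_ne_zero _ n1) (zpow_ne_zero _ n3))
    (zpow_ne_zero _ n7)) (zpow_ne_zero _ n21) h1

section w21

variable {z : ℂ} (hz : 0 < z.im)
include hz

lemma w21_pos : 0 < (-1 / (21 * z) : ℂ).im := by
  have h := (im_moebius (a := 0) (b := -1) (c := 1) (d := 0) (by norm_num)
    (im_mul hz 21 (by norm_num))).1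
  simpa using h

lemma w21_G : G (-1 / (21 * z)) = -Complex.I * (21 * z) * G (21 * z) ∧
    G (3 * (-1 / (21 * z))) = -Complex.I * (7 * z) * G (7 * z) ∧
    G (7 * (-1 / (21 * z))) = -Complex.I * (3 * z) * G (3 * z) ∧
    G (21 * (-1 / (21 * z))) = -Complex.I * z * G z := by
  have h0 := z_ne hz
  refine ⟨G_S (im_mul hz 21 (by norm_num)), ?_, ?_, ?_⟩
  · rw [show (3 : ℂ) * (-1 / (21 * z)) = -1 / (7 * z) by field_simp; norm_num]
    exact G_S (im_mul hz 7 (by norm_num))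
  · rw [show (7 : ℂ) * (-1 / (21 * z)) = -1 / (3 * z) by field_simp; norm_num]
    exact G_S (im_mul hz 3 (by norm_num))
  · rw [show (21 : ℂ) * (-1 / (21 * z)) = -1 / z by field_simp]
    exact G_S hz

lemma W_w21 : W (-1 / (21 * z)) = W z := by
  obtain ⟨e1, e3, e7, e21⟩ := w21_G hz
  obtain ⟨n1, n3, n7, n21⟩ := Gs_nes hz
  have h0 := z_ne hz
  have hI : Complex.I ≠ 0 := Complex.I_ne_zero
  unfold W Gs
  rw [e1, e3, e7, e21, zpow_neg_one, zpow_neg_one, zpow_neg_one, zpow_neg_one, zpow_one, zpow_one,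
    zpow_one, zpow_one]
  field_simp
  ring

lemma X1_w21 : X1 (-1 / (21 * z)) ^ 2 = 49 * W z ^ 4 / X1 z ^ 2 := by
  obtain ⟨e1, e3, e7, e21⟩ := w21_G hz
  obtain ⟨n1, n3, n7, n21⟩ := Gs_nes hz
  have h0 := z_ne hz
  have hI : Complex.I ≠ 0 := Complex.I_ne_zero
  rw [X1_sq, X1_sq]
  unfold W Gs
  rw [e1, e3, e7, e21, zpow_neg_one, zpow_neg_one, zpow_neg_one, zpow_one, zpow_one,
    zpow_one, zpow_neg, zpow_neg]
  norm_cast
  field_simp
  ring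

lemma U_w21 : U (-1 / (21 * z)) = (21 * z ^ 2) ^ 6 * U z := by
  obtain ⟨e1, e3, e7, e21⟩ := w21_G hz
  unfold U Gs
  rw [e1, e3, e7, e21, zpow_one, zpow_one, zpow_one, zpow_one]
  norm_cast
  have hI : Complex.I ^ 12 = 1 := by
    rw [show (12 : ℕ) = 4 * 3 by norm_num, pow_mul, I4, one_pow]
  linear_combination ((21 * z ^ 2) ^ 6 * G z ^ 5 * G (3 * z) * G (7 * z) * G (21 * z) ^ 5) * hI

end w21

section w7

variable {z : ℂ} (hz : 0 < z.im)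
include hz

lemma w7_aux : (3 * z + 1 : ℂ) ≠ 0 := by
  intro h
  have := congrArg Complex.im h
  simp at this
  exact hz.ne' this

lemma w7_pos : 0 < ((7 * z + 2) / (21 * z + 7) : ℂ).im := by
  have h := (im_moebius (a := 1) (b := 2) (c := 3) (d := 7) (by norm_num)
    (im_mul hz 7 (by norm_num))).1
  push_cast at h
  convert h using 2
  congr 1 <;> ring

lemma w7_G : G ((7 * z + 2) / (21 * z + 7)) = ze ^ (11 : ℤ) * (21 * z + 7) * G (7 * z) ∧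
    G (3 * ((7 * z + 2) / (21 * z + 7))) = ze ^ (5 : ℤ) * (21 * z + 7) * G (21 * z) ∧
    G (7 * ((7 * z + 2) / (21 * z + 7))) = ze ^ (11 : ℤ) * (3 * z + 1) * G z ∧
    G (21 * ((7 * z + 2) / (21 * z + 7))) = ze ^ (5 : ℤ) * (3 * z + 1) * G (3 * z) := by
  have h0 := w7_aux hz
  have h7 : (21 * z + 7 : ℂ) = 7 * (3 * z + 1) := by ring
  have e1 := G_moebius (a := 1) (b := 2) (c := 3) (d := 7) (by norm_num)
    (im_mul hz 7 (by norm_num))
  have e3 := G_moebius (a := 1) (b := 6) (c := 1) (d := 7) (by norm_num)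
    (im_mul hz 21 (by norm_num))
  have e7 := G_moebius (a := 7) (b := 2) (c := 3) (d := 1) (by norm_num) hz
  have e21 := G_moebius (a := 7) (b := 6) (c := 1) (d := 1) (by norm_num)
    (im_mul hz 3 (by norm_num))
  rw [ze_congr (m := kap (1 : ℤ) 2 3 7) (n := 11) (by norm_num [kap])] at e1
  rw [ze_congr (m := kap (1 : ℤ) 6 1 7) (n := 5) (by norm_num [kap])] at e3
  rw [ze_congr (m := kap (7 : ℤ) 2 3 1) (n := 11) (by norm_num [kap])] at e7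
  rw [ze_congr (m := kap (7 : ℤ) 6 1 1) (n := 5) (by norm_num [kap])] at e21
  push_cast at e1 e3 e7 e21
  refine ⟨?_, ?_, ?_, ?_⟩
  · rw [show (7 * z + 2) / (21 * z + 7) = (1 * (7 * z) + 2) / (3 * (7 * z) + 7) by
      congr 1 <;> ring, e1]
    ring
  · rw [show 3 * ((7 * z + 2) / (21 * z + 7)) = (1 * (21 * z) + 6) / (1 * (21 * z) + 7) by
      rw [← mul_div_assoc]; congr 1 <;> ring, e3]
    ring
  · rw [show 7 * ((7 * z + 2) / (21 * z + 7)) = (7 * z + 2) / (3 * z + 1) by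
      rw [h7]; field_simp, e7]
  · rw [show 21 * ((7 * z + 2) / (21 * z + 7)) = (7 * (3 * z) + 6) / (1 * (3 * z) + 1) by
      rw [h7, show (1 * (3 * z) + 1 : ℂ) = 3 * z + 1 by ring]; field_simp; ring, e21]
    ring

lemma Gs_w7 (s1 s3 s7 s21 : ℤ) : Gs s1 s3 s7 s21 ((7 * z + 2) / (21 * z + 7)) =
    ze ^ (11 * s1 + 5 * s3 + 11 * s7 + 5 * s21) * 7 ^ (s1 + s3) *
      (3 * z + 1) ^ (s1 + s3 + s7 + s21) * (G (7 * z) ^ s1 * G (21 * z) ^ s3 * G z ^ s7 *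
      G (3 * z) ^ s21) := by
  obtain ⟨e1, e3, e7, e21⟩ := w7_G hz
  have h0 := w7_aux hz
  have h7 : (21 * z + 7 : ℂ) = 7 * (3 * z + 1) := by ring
  unfold Gs
  rw [e1, e3, e7, e21, h7]
  have h7' : (7 : ℂ) ≠ 0 := by norm_num
  simp only [mul_zpow, zpow_add₀ h0, zpow_add₀ h7', zpow_add₀ ze_ne, zpow_mul]
  ring

lemma W_w7 : W ((7 * z + 2) / (21 * z + 7)) = (W z)⁻¹ := by
  have h0 := w7_aux hz
  obtain ⟨n1, n3, n7, n21⟩ := Gs_nes hz
  unfold W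
  rw [Gs_w7 hz]
  have e : ze ^ ((11 : ℤ) * -1 + 5 * 1 + 11 * 1 + 5 * -1) = 1 := by
    rw [show ((11 : ℤ) * -1 + 5 * 1 + 11 * 1 + 5 * -1) = 12 * 0 by norm_num]; exact ze12k 0
  rw [e]
  unfold Gs
  norm_num
  field_simp

lemma X1_w7 : X1 ((7 * z + 2) / (21 * z + 7)) ^ 2 = 49 / X1 z ^ 2 := by
  have h0 := w7_aux hz
  obtain ⟨n1, n3, n7, n21⟩ := Gs_nes hz
  rw [X1_sq, X1_sq, Gs_w7 hz]
  have e : ze ^ ((11 : ℤ) * -1 + 5 * 3 + 11 * 1 + 5 * -3) = 1 := by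
    rw [show ((11 : ℤ) * -1 + 5 * 3 + 11 * 1 + 5 * -3) = 12 * 0 by norm_num]; exact ze12k 0
  rw [e]
  unfold Gs
  rw [zpow_neg_one, zpow_neg_one, zpow_one, zpow_one, zpow_neg, zpow_neg]
  norm_num
  norm_cast
  field_simp

lemma U_w7 : U ((7 * z + 2) / (21 * z + 7)) = (7 * (3 * z + 1) ^ 2) ^ 6 * (U z * W z ^ 4) := by
  have h0 := w7_aux hz
  obtain ⟨n1, n3, n7, n21⟩ := Gs_nes hz
  unfold U W
  rw [Gs_w7 hz]
  have e : ze ^ ((11 : ℤ) * 5 + 5 * 1 + 11 * 1 + 5 * 5) = 1 := by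
    rw [show ((11 : ℤ) * 5 + 5 * 1 + 11 * 1 + 5 * 5) = 12 * 8 by norm_num]; exact ze12k 8
  rw [e]
  unfold Gs
  rw [zpow_neg_one, zpow_neg_one, zpow_one, zpow_one, zpow_one, zpow_one]
  norm_num
  norm_cast
  field_simp
  ring

end w7

section w3

variable {z : ℂ} (hz : 0 < z.im)
include hz

lemma w3_aux : (7 * z - 2 : ℂ) ≠ 0 := by
  intro h
  have := congrArg Complex.im h
  simp at this
  exact hz.ne' this

lemma w3_pos : 0 < ((3 * z - 1) / (21 * z - 6) : ℂ).im := by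
  have h := (im_moebius (a := 1) (b := -1) (c := 7) (d := -6) (by norm_num)
    (im_mul hz 3 (by norm_num))).1
  push_cast at h
  convert h using 2
  congr 1 <;> ring

lemma w3_G : G ((3 * z - 1) / (21 * z - 6)) = ze ^ (4 : ℤ) * (21 * z - 6) * G (3 * z) ∧
    G (3 * ((3 * z - 1) / (21 * z - 6))) = ze ^ (10 : ℤ) * (7 * z - 2) * G z ∧
    G (7 * ((3 * z - 1) / (21 * z - 6))) = ze ^ (4 : ℤ) * (21 * z - 6) * G (21 * z) ∧
    G (21 * ((3 * z - 1) / (21 * z - 6))) = ze ^ (10 : ℤ) * (7 * z - 2) * G (7 * z) := by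
  have h0 := w3_aux hz
  have h7 : (21 * z - 6 : ℂ) = 3 * (7 * z - 2) := by ring
  have e1 := G_moebius (a := 1) (b := -1) (c := 7) (d := -6) (by norm_num)
    (im_mul hz 3 (by norm_num))
  have e3 := G_moebius (a := 3) (b := -1) (c := 7) (d := -2) (by norm_num) hz
  have e7 := G_moebius (a := 1) (b := -7) (c := 1) (d := -6) (by norm_num)
    (im_mul hz 21 (by norm_num))
  have e21 := G_moebius (a := 3) (b := -7) (c := 1) (d := -2) (by norm_num)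
    (im_mul hz 7 (by norm_num))
  rw [ze_congr (m := kap (1 : ℤ) (-1) 7 (-6)) (n := 4) (by norm_num [kap])] at e1
  rw [ze_congr (m := kap (3 : ℤ) (-1) 7 (-2)) (n := 10) (by norm_num [kap])] at e3
  rw [ze_congr (m := kap (1 : ℤ) (-7) 1 (-6)) (n := 4) (by norm_num [kap])] at e7
  rw [ze_congr (m := kap (3 : ℤ) (-7) 1 (-2)) (n := 10) (by norm_num [kap])] at e21
  push_cast at e1 e3 e7 e21
  refine ⟨?_, ?_, ?_, ?_⟩
  · rw [show (3 * z - 1) / (21 * z - 6) = (1 * (3 * z) + -1) / (7 * (3 * z) + -6) by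
      congr 1 <;> ring, e1]
    ring
  · rw [show 3 * ((3 * z - 1) / (21 * z - 6)) = (3 * z + -1) / (7 * z + -2) by
      rw [h7, show (7 * z + -2 : ℂ) = 7 * z - 2 by ring]; field_simp; ring, e3]
    ring
  · rw [show 7 * ((3 * z - 1) / (21 * z - 6)) = (1 * (21 * z) + -7) / (1 * (21 * z) + -6) by
      rw [← mul_div_assoc]; congr 1 <;> ring, e7]
    ring
  · rw [show 21 * ((3 * z - 1) / (21 * z - 6)) = (3 * (7 * z) + -7) / (1 * (7 * z) + -2) by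
      rw [h7, show (1 * (7 * z) + -2 : ℂ) = 7 * z - 2 by ring]; field_simp; ring, e21]
    ring

lemma Gs_w3 (s1 s3 s7 s21 : ℤ) : Gs s1 s3 s7 s21 ((3 * z - 1) / (21 * z - 6)) =
    ze ^ (4 * s1 + 10 * s3 + 4 * s7 + 10 * s21) * 3 ^ (s1 + s7) *
      (7 * z - 2) ^ (s1 + s3 + s7 + s21) * (G (3 * z) ^ s1 * G z ^ s3 * G (21 * z) ^ s7 *
      G (7 * z) ^ s21) := by
  obtain ⟨e1, e3, e7, e21⟩ := w3_G hz
  have h0 := w3_aux hz
  have h7 : (21 * z - 6 : ℂ) = 3 * (7 * z - 2) := by ring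
  unfold Gs
  rw [e1, e3, e7, e21, h7]
  have h3' : (3 : ℂ) ≠ 0 := by norm_num
  simp only [mul_zpow, zpow_add₀ h0, zpow_add₀ h3', zpow_add₀ ze_ne, zpow_mul]
  ring

lemma W_w3 : W ((3 * z - 1) / (21 * z - 6)) = (W z)⁻¹ := by
  have h0 := w3_aux hz
  obtain ⟨n1, n3, n7, n21⟩ := Gs_nes hz
  unfold W
  rw [Gs_w3 hz]
  have e : ze ^ ((4 : ℤ) * -1 + 10 * 1 + 4 * 1 + 10 * -1) = 1 := by
    rw [show ((4 : ℤ) * -1 + 10 * 1 + 4 * 1 + 10 * -1) = 12 * 0 by norm_num]; exact ze12k 0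
  rw [e]
  unfold Gs
  norm_num
  field_simp

lemma X1_w3 : X1 ((3 * z - 1) / (21 * z - 6)) ^ 2 = X1 z ^ 2 / W z ^ 4 := by
  have h0 := w3_aux hz
  obtain ⟨n1, n3, n7, n21⟩ := Gs_nes hz
  rw [X1_sq, X1_sq, Gs_w3 hz]
  have e : ze ^ ((4 : ℤ) * -1 + 10 * 3 + 4 * 1 + 10 * -3) = 1 := by
    rw [show ((4 : ℤ) * -1 + 10 * 3 + 4 * 1 + 10 * -3) = 12 * 0 by norm_num]; exact ze12k 0
  rw [e]
  unfold W Gs
  rw [zpow_neg_one, zpow_neg_one, zpow_neg_one, zpow_one, zpow_one, zpow_one, zpow_neg, zpow_neg]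
  norm_num
  norm_cast
  field_simp

lemma U_w3 : U ((3 * z - 1) / (21 * z - 6)) = (3 * (7 * z - 2) ^ 2) ^ 6 * (U z * W z ^ 4) := by
  have h0 := w3_aux hz
  obtain ⟨n1, n3, n7, n21⟩ := Gs_nes hz
  unfold U W
  rw [Gs_w3 hz]
  have e : ze ^ ((4 : ℤ) * 5 + 10 * 1 + 4 * 1 + 10 * 5) = 1 := by
    rw [show ((4 : ℤ) * 5 + 10 * 1 + 4 * 1 + 10 * 5) = 12 * 7 by norm_num]; exact ze12k 7
  rw [e]
  unfold Gs
  rw [zpow_neg_one, zpow_neg_one, zpow_one, zpow_one, zpow_one, zpow_one]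
  norm_num
  norm_cast
  field_simp
  ring

end w3

end Pool.Agent.N402.MF21
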