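import Pool.Agent.N816.M17.HasseG
import Pool.Agent.N974.MF.FOUR
import Pool.Agent.N974.Gen.Models

/-!
The curve `21a1 = [1, 0, 0, -4, -1]`.
-/

set_option autoImplicit false

namespace Pool.Agent.N402.MF21

open WeierstrassCurve WeierstrassCurve.Affine
open Pool.Agent.W97.MT (affCount ap)
open Pool.Agent.N974.Gen (E21)

/-- four divides the number of points -/
theorem four21 (p : ℕ) (hp : p.Prime) (h2 : p ≠ 2) (h3 : p ≠ 3) (h7 : p ≠ 7) :
    4 ∣ affCount E21 p + 1 := by
  classical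
  haveI : Fact p.Prime := ⟨hp⟩
  have hne : ∀ n : ℕ, (n : ZMod p) = 0 → p ∣ n := fun n h => (ZMod.natCast_eq_zero_iff n p).1 h
  have h2' : (2 : ZMod p) ≠ 0 := by
    intro h
    have := hne 2 (by exact_mod_cast h)
    exact h2 ((Nat.prime_dvd_prime_iff_eq hp Nat.prime_two).1 this)
  have h3' : (3 : ZMod p) ≠ 0 := by
    intro h
    have := hne 3 (by exact_mod_cast h)
    exact h3 ((Nat.prime_dvd_prime_iff_eq hp Nat.prime_three).1 this)
  have h7' : (7 : ZMod p) ≠ 0 := by
    intro h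
    have := hne 7 (by exact_mod_cast h)
    exact h7 ((Nat.prime_dvd_prime_iff_eq hp (by norm_num)).1 this)
  have h21 : (21 : ZMod p) ≠ 0 := by
    rw [show (21 : ZMod p) = 3 * 7 by norm_num]
    exact mul_ne_zero h3' h7'
  set W : WeierstrassCurve (ZMod p) := E21.map (Int.castRingHom (ZMod p)) with hW
  have ha1 : W.a₁ = 1 := by simp [hW, E21]
  have ha2 : W.a₂ = 0 := by simp [hW, E21]
  have ha3 : W.a₃ = 0 := by simp [hW, E21]
  have ha4 : W.a₄ = -4 := by simp [hW, E21]
  have ha6 : W.a₆ = -1 := by simp [hW, E21]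
  have hΔ : W.Δ ≠ 0 := by
    have : W.Δ = 3 ^ 2 * 21 ^ 2 := by
      simp only [WeierstrassCurve.Δ, WeierstrassCurve.b₂, WeierstrassCurve.b₄, WeierstrassCurve.b₆,
        WeierstrassCurve.b₈, ha1, ha2, ha3, ha4, ha6]
      norm_num
    rw [this]
    exact mul_ne_zero (pow_ne_zero _ h3') (pow_ne_zero _ h21)
  haveI : W.IsElliptic := ⟨isUnit_iff_ne_zero.2 hΔ⟩
  have hcard : Nat.card (WeierstrassCurve.Affine.Point W.toAffine) = affCount E21 p + 1 := by
    rw [Nat.card_congr (pointEquiv W.toAffine)]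
    unfold affCount
    exact Finite.card_option
  haveI : Finite (WeierstrassCurve.Affine.Point W.toAffine) := by
    haveI : Finite (WithZero {xy : ZMod p × ZMod p // W.toAffine.Equation xy.fst xy.snd}) :=
      inferInstanceAs (Finite (Option {xy : ZMod p × ZMod p //
        W.toAffine.Equation xy.fst xy.snd}))
    exact Finite.of_equiv _ (pointEquiv W.toAffine).symm
  -- a point of order four: `(5, 8)`, whose double is `(2, -1)`
  have hQe : W.toAffine.Equation 5 8 := by
    rw [WeierstrassCurve.Affine.equation_iff, ha1, ha2, ha3, ha4, ha6]; norm_num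
  have hTe : W.toAffine.Equation 2 (-1) := by
    rw [WeierstrassCurve.Affine.equation_iff, ha1, ha2, ha3, ha4, ha6]; norm_num
  have hQn := (equation_iff_nonsingular (W := W.toAffine)).1 hQe
  have hTn := (equation_iff_nonsingular (W := W.toAffine)).1 hTe
  have hT2 : (Point.some _ _ hTn : W.toAffine.Point) + Point.some _ _ hTn = 0 := by
    apply Point.add_self_of_Y_eq
    rw [negY, ha1, ha3]
    ring
  have hY : (8 : ZMod p) ≠ W.toAffine.negY 5 8 := by
    rw [negY, ha1, ha3]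
    intro h
    apply h21
    linear_combination h
  have hsl : W.toAffine.slope 5 5 8 8 = 3 := by
    rw [slope_of_Y_ne rfl hY, ha1, ha2, ha4, negY, ha1, ha3]
    rw [div_eq_iff]
    · norm_num
    · intro h; apply h21; linear_combination h
  have hQQ : (Point.some _ _ hQn : W.toAffine.Point) + Point.some _ _ hQn =
      Point.some _ _ hTn := by
    rw [Point.add_self_of_Y_ne hY]
    have e1 : W.toAffine.addX 5 5 (W.toAffine.slope 5 5 8 8) = 2 := by
      rw [hsl, addX, ha1, ha2]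
      ring
    have e2 : W.toAffine.addY 5 5 8 (W.toAffine.slope 5 5 8 8) = -1 := by
      rw [addY, negAddY, e1, hsl, negY, ha1, ha3]
      ring
    simp only [e1, e2]
  have hQ4 : addOrderOf (Point.some _ _ hQn : W.toAffine.Point) = 2 ^ (1 + 1) := by
    haveI : Fact (Nat.Prime 2) := ⟨Nat.prime_two⟩
    apply addOrderOf_eq_prime_pow
    · rw [pow_one, two_nsmul, hQQ]
      exact Point.some_ne_zero _
    · rw [show (2 : ℕ) ^ (1 + 1) = 2 + 2 by norm_num, add_nsmul, two_nsmul, hQQ, hT2]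
  rw [← hcard]
  have : 2 ^ (1 + 1) ∣ Nat.card (WeierstrassCurve.Affine.Point W.toAffine) := by
    rw [← hQ4]; exact addOrderOf_dvd_natCard _
  simpa using this

/-- Hasse's bound -/
theorem good21' (p : ℕ) (hp : p.Prime) : |((ap E21 p : ℤ) : ℝ)| ≤ 2 * Real.sqrt p := by
  by_cases h2 : p = 2
  · subst h2
    rw [N974.Gen.ap21_2]
    have h1 : (1 : ℝ) ≤ Real.sqrt 2 := Real.one_le_sqrt.2 (by norm_num)
    push_cast
    rw [abs_neg, abs_one]
    linarith
  by_cases h3 : p = 3
  · subst h3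
    rw [N974.Gen.ap21_3]
    have h1 : (1 : ℝ) ≤ Real.sqrt 3 := Real.one_le_sqrt.2 (by norm_num)
    push_cast
    rw [abs_one]
    linarith
  haveI : Fact p.Prime := ⟨hp⟩
  rw [← N974.Gen.cnt21 hp h2 h3]
  exact N974.Gen.hasse_short h2 _ _

/-- the coefficient of `q^p` modulo `p` -/
theorem hasse21 (p : ℕ) [Fact p.Prime] (hp : p ≠ 2) (φ ξ σ : PowerSeries (ZMod p))
    (hξ : PowerSeries.constantCoeff ξ = 1) (hσ : PowerSeries.constantCoeff σ = -2)
    (h1 : PowerSeries.X * PowerSeries.derivative (ZMod p) ξ - 2 * ξ = φ * σ)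
    (h2 : σ ^ 2 = 4 * ξ ^ 3 + PowerSeries.X ^ 2 * ξ ^ 2 - 16 * PowerSeries.X ^ 4 * ξ -
      4 * PowerSeries.X ^ 6) :
    PowerSeries.coeff (p - 1) φ = (ap E21 p : ZMod p) := by
  have b2 : E21.b₂ = 1 := by simp [WeierstrassCurve.b₂, E21]
  have b4 : E21.b₄ = -8 := by simp [WeierstrassCurve.b₄, E21]
  have b6 : E21.b₆ = -4 := by simp [WeierstrassCurve.b₆, E21]
  refine N816.M17.HG.hasse_gen E21 p hp φ ξ σ hξ hσ h1 (c2 := 1) (c1 := -16) (c0 := -4) ?_ ?_ ?_ ?_
  · rw [b2]; push_cast; ring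
  · rw [b4]; push_cast; ring
  · rw [b6]; push_cast; ring
  · rw [h2]
    simp only [map_neg, map_ofNat, map_one]
    ring

end Pool.Agent.N402.MF21
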