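import Pool.Agent.N402.MF21.Form
import Pool.Agent.N402.MF21.E21
import Pool.Agent.N974.Gen.S21

/-!
Coefficients and Hecke eigenvalues, level 21.
-/

set_option autoImplicit false

open UpperHalfPlane MatrixGroups CongruenceSubgroup Filter Topology
open scoped ModularForm Pointwise

namespace Pool.Agent.N402.MF21

open Pool.Agent.W97.TW
open Pool.Agent.W97.MT (qq qq_ne norm_qq norm_qq_lt im_mul z_ne H_open Q_ne Q_ne_pow
  QV iI iI_pos iI_gt iI_eventually tendsto_qq eq_or_eq_neg tpi_ne hasDerivAt_qq const_of_deriv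
  line_im line_re cusp_expansion Rep RepC num exists_qq qParam_one affCount ap)
open Pool.Agent.N974.MF (Tr Hor)
open Pool.Agent.N974.Gen (E21 Param Eigen)

lemma F_qq {z : ℂ} (hz : 0 < z.im) : cuspFunction 1 f21 (qq z) = ff z := by
  rw [N974.Gen.cusp_eq, ← N974.Gen.ff_q f21 hz, gff hz]

theorem data : ∃ Ξ P : PowerSeries ℤ, Rep xi Ξ ∧ Tr Ξ lxi ∧ Tr P lphi ∧
    Rep (cuspFunction 1 f21) (PowerSeries.X * P) ∧
    qExpansion 1 f21 = PowerSeries.map (Int.castRingHom ℂ) (PowerSeries.X * P) := by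
  obtain ⟨Ξ, O, U, H, P, rΞ, rO, rU, rH, tΞ, tO, tU, tH, hP, tP⟩ := expansions
  have rF : RepC (cuspFunction 1 f21) (qExpansion 1 f21) := fun q hq => N974.Gen.hasSum_cusp f21 hq
  have r1 : Rep (fun q => q ^ 2 * xh q - xi q) (PowerSeries.X ^ 2 * H - Ξ) :=
    ((Rep.X.pow 2).mul rH).sub rΞ
  have r2 : Rep (fun q => q * (q * deriv om q - om q))
      (PowerSeries.X * (PowerSeries.X * PowerSeries.derivative ℤ O - O)) :=
    Rep.X.mul (rO.theta.sub rO)
  have r3 := rF.mul r1
  have h1 := RepC.unique r3 (RepC.congr r2 fun q hq => by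
    by_cases h0 : q = 0
    · rw [h0, N974.Gen.cusp_zero]
      ring
    · obtain ⟨z, hz, rfl⟩ := exists_qq hq h0
      rw [F_qq hz]
      exact ff_q' rO hz)
  rw [← hP] at h1
  have h2 : PowerSeries.map (Int.castRingHom ℂ) (PowerSeries.X ^ 2 * H - Ξ) ≠ 0 := by
    intro h
    have h3 := congrArg PowerSeries.constantCoeff h
    have e0 := tΞ 0 (by norm_num)
    have e1 : PowerSeries.constantCoeff Ξ = 1 := by
      rw [← PowerSeries.coeff_zero_eq_constantCoeff_apply, e0]; rfl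
    have h4 : PowerSeries.constantCoeff (PowerSeries.X ^ 2 * H - Ξ) = -1 := by
      rw [map_sub, e1, map_mul, map_pow, PowerSeries.constantCoeff_X]
      norm_num
    rw [← PowerSeries.coeff_zero_eq_constantCoeff_apply, PowerSeries.coeff_map,
      PowerSeries.coeff_zero_eq_constantCoeff_apply, h4, map_zero] at h3
    norm_num at h3
  have h3 : qExpansion 1 f21 = PowerSeries.map (Int.castRingHom ℂ) (PowerSeries.X * P) := by
    refine mul_right_cancel₀ h2 ?_
    rw [h1, ← map_mul, mul_assoc]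
  exact ⟨Ξ, P, rΞ, tΞ, tP, by rw [h3] at rF; exact rF, h3⟩

section coef

variable {P : PowerSeries ℤ}
  (hq : qExpansion 1 f21 = PowerSeries.map (Int.castRingHom ℂ) (PowerSeries.X * P))
include hq

lemma coeff_f21 (n : ℕ) : (qExpansion 1 f21).coeff n =
    ((PowerSeries.coeff n (PowerSeries.X * P) : ℤ) : ℂ) := by
  rw [hq, PowerSeries.coeff_map]
  rfl

variable (hP0 : PowerSeries.coeff 0 P = 1)
include hP0

lemma coeff_one : (qExpansion 1 f21).coeff 1 = 1 := by
  rw [coeff_f21 hq 1, show (1 : ℕ) = 0 + 1 by rfl, PowerSeries.coeff_succ_X_mul, hP0]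
  norm_num

lemma f21_ne : ∃ z : ℍ, f21 z ≠ 0 := by
  by_contra hcon
  push Not at hcon
  have rF : RepC (cuspFunction 1 f21) (qExpansion 1 f21) := fun q hq => N974.Gen.hasSum_cusp f21 hq
  have h0 : ∀ q : ℂ, ‖q‖ < 1 → cuspFunction 1 f21 q = 0 := by
    intro q hq1
    by_cases h0 : q = 0
    · rw [h0, N974.Gen.cusp_zero]
    · obtain ⟨z, hz, rfl⟩ := exists_qq hq1 h0
      rw [F_qq hz]
      exact hcon ⟨z, hz⟩
  have h1 := RepC.unique rF (RepC.congr (RepC.C 0) h0)
  have h2 := coeff_one hq hP0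
  rw [h1, PowerSeries.coeff_C] at h2
  norm_num at h2

lemma hecke_f21 {p : ℕ} (hp : p.Prime) (z : ℍ) :
    heckeT 21 2 p f21 z = ((PowerSeries.coeff (p - 1) P : ℤ) : ℂ) * f21 z := by
  obtain ⟨z1, hz1⟩ := f21_ne hq hP0
  obtain ⟨c, hc⟩ := N402.Dim.dim21 f21 (heckeForm f21 hp) hz1
  have h1 : ∀ z : ℍ, heckeT 21 2 p f21 z = c * f21 z := hc
  have h2 := hecke_rec f21 hp.pos h1 1
  have h3 : A f21 1 = 1 := by
    unfold A
    exact coeff_one hq hP0
  have h4 : A f21 p = ((PowerSeries.coeff (p - 1) P : ℤ) : ℂ) := by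
    unfold A
    rw [coeff_f21 hq p]
    obtain ⟨m, rfl⟩ : ∃ m, p = m + 1 := ⟨p - 1, by have := hp.pos; omega⟩
    rw [PowerSeries.coeff_succ_X_mul]
    rfl
  have h5 : B f21 p 1 = A f21 p := by
    unfold B
    rw [if_neg (c := p ∣ 1) (fun h => hp.one_lt.ne' (Nat.dvd_one.1 h)), mul_zero, zero_add, mul_one]
  rw [h3, mul_one, h5, h4] at h2
  rw [h1, h2]

end coef

/-- the formal identities -/
lemma formal {Ξ P : PowerSeries ℤ} (rΞ : Rep xi Ξ)
    (rF : Rep (cuspFunction 1 f21) (PowerSeries.X * P)) (hP0 : PowerSeries.constantCoeff P = 1) :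
    ∃ S : PowerSeries ℤ, PowerSeries.constantCoeff S = -2 * PowerSeries.constantCoeff Ξ ∧
    PowerSeries.X * PowerSeries.derivative ℤ Ξ - 2 * Ξ = P * S ∧
    S ^ 2 = 4 * Ξ ^ 3 - 23 * PowerSeries.X ^ 2 * Ξ ^ 2 + 28 * PowerSeries.X ^ 4 * Ξ := by
  have hu : IsUnit P := by
    rw [PowerSeries.isUnit_iff_constantCoeff, hP0]; exact isUnit_one
  obtain ⟨V, hV⟩ := hu.exists_right_inv
  have hS : P * (V * (PowerSeries.X * PowerSeries.derivative ℤ Ξ - 2 * Ξ)) =
      PowerSeries.X * PowerSeries.derivative ℤ Ξ - 2 * Ξ := by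
    rw [← mul_assoc, hV, one_mul]
  refine ⟨V * (PowerSeries.X * PowerSeries.derivative ℤ Ξ - 2 * Ξ), ?_, hS.symm, ?_⟩
  · have h1 := congrArg PowerSeries.constantCoeff hV
    rw [map_mul, hP0, one_mul, map_one] at h1
    rw [map_mul, map_sub, map_mul, map_mul, h1, PowerSeries.constantCoeff_X, map_ofNat]
    ring
  · set S := V * (PowerSeries.X * PowerSeries.derivative ℤ Ξ - 2 * Ξ) with hSd
    have key : (PowerSeries.X * P) ^ 2 * S ^ 2 = (PowerSeries.X * P) ^ 2 *
        (4 * Ξ ^ 3 - 23 * PowerSeries.X ^ 2 * Ξ ^ 2 + 28 * PowerSeries.X ^ 4 * Ξ) := by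
      have e1 : (PowerSeries.X * P) ^ 2 * S ^ 2 =
          (PowerSeries.X * (PowerSeries.X * PowerSeries.derivative ℤ Ξ - 2 * Ξ)) ^ 2 := by
        rw [← hS]; ring
      rw [e1]
      rw [num 2, num 4, num 23, num 28]
      refine ((Rep.X.mul (rΞ.theta.sub ((Rep.C 2).mul rΞ))).pow 2).unique (((rF.pow 2).mul
        ((((Rep.C 4).mul (rΞ.pow 3)).sub (((Rep.C 23).mul (Rep.X.pow 2)).mul (rΞ.pow 2))).add
        (((Rep.C 28).mul (Rep.X.pow 4)).mul rΞ))).congr fun q hq1 => ?_)
      push_cast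
      by_cases h0 : q = 0
      · rw [h0, N974.Gen.cusp_zero]; ring
      · obtain ⟨z, hz, rfl⟩ := exists_qq hq1 h0
        have h1 := RR_sq hz
        have h2 := dX_q rΞ hz
        rw [deriv_X1 hz] at h2
        have h3 : qq z ^ 2 * (ff z * RR z) = qq z * deriv xi (qq z) - 2 * xi (qq z) := by
          have h4 : (2 * Real.pi * Complex.I) * (qq z ^ 2 * (ff z * RR z) -
              (qq z * deriv xi (qq z) - 2 * xi (qq z))) = 0 := by
            linear_combination h2
          exact sub_eq_zero.1 ((mul_eq_zero.1 h4).resolve_left tpi_ne)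
        rw [← h3, F_qq hz, ← qq_X1 hz]
        linear_combination (qq z ^ 6 * ff z ^ 2) * h1
    have hP2 : (PowerSeries.X * P) ^ 2 ≠ 0 := by
      refine pow_ne_zero 2 (mul_ne_zero PowerSeries.X_ne_zero hu.ne_zero)
    exact mul_left_cancel₀ hP2 key

/-- the coefficient modulo `p` -/
lemma coeff_mod {Ξ P : PowerSeries ℤ} (rΞ : Rep xi Ξ)
    (rF : Rep (cuspFunction 1 f21) (PowerSeries.X * P)) (tΞ : Tr Ξ lxi) (tP : Tr P lphi)
    {p : ℕ} (hp : p.Prime) (hp2 : p ≠ 2) :
    ((PowerSeries.coeff (p - 1) P : ℤ) : ZMod p) = (ap E21 p : ZMod p) := by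
  have : Fact p.Prime := ⟨hp⟩
  have cΞ : PowerSeries.constantCoeff Ξ = 1 := by
    have := tΞ 0 (by norm_num)
    simpa [lxi] using this
  have cP : PowerSeries.constantCoeff P = 1 := by
    have := tP 0 (by norm_num)
    simpa [lphi] using this
  obtain ⟨S, cS, h1, h2⟩ := formal rΞ rF cP
  -- the shift
  obtain ⟨Z, hZ⟩ : ∃ Z : PowerSeries ℤ, Z = Ξ - 2 * PowerSeries.X ^ 2 := ⟨_, rfl⟩
  have hΞ : Ξ = Z + 2 * PowerSeries.X ^ 2 := by rw [hZ]; ring
  have cZ : PowerSeries.constantCoeff Z = 1 := by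
    rw [hZ, map_sub, map_mul, map_pow, PowerSeries.constantCoeff_X, cΞ]
    norm_num
  have hdX : PowerSeries.derivative ℤ (2 * PowerSeries.X ^ 2 : PowerSeries ℤ) =
      4 * PowerSeries.X := by
    rw [num 2, num 4]
    ext n
    rw [PowerSeries.coeff_derivative, PowerSeries.coeff_C_mul, PowerSeries.coeff_C_mul,
      PowerSeries.coeff_X_pow, PowerSeries.coeff_X]
    by_cases hn : n = 1
    · subst hn; norm_num
    · rw [if_neg (by omega), if_neg hn]; ring
  have h1' : PowerSeries.X * PowerSeries.derivative ℤ Z - 2 * Z = P * S := by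
    rw [← h1, hΞ, map_add, hdX]
    ring
  have h2' : S ^ 2 = 4 * Z ^ 3 + PowerSeries.X ^ 2 * Z ^ 2 - 16 * PowerSeries.X ^ 4 * Z -
      4 * PowerSeries.X ^ 6 := by
    rw [h2, hΞ]
    ring
  set m := PowerSeries.map (Int.castRingHom (ZMod p)) with hm
  have hX : m PowerSeries.X = PowerSeries.X := PowerSeries.map_X _
  have hd : m (PowerSeries.derivative ℤ Z) = PowerSeries.derivative (ZMod p) (m Z) := by
    ext n
    simp [hm, PowerSeries.coeff_derivative]
  have h3 := congrArg m h1'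
  have h4 := congrArg m h2'
  simp only [map_sub, map_add, map_mul, map_pow, hX, hd, map_ofNat] at h3 h4
  have hcc : ∀ V : PowerSeries ℤ, PowerSeries.constantCoeff (m V) =
      ((PowerSeries.constantCoeff V : ℤ) : ZMod p) := by
    intro V
    rw [← PowerSeries.coeff_zero_eq_constantCoeff_apply, ← PowerSeries.coeff_zero_eq_constantCoeff_apply,
      hm, PowerSeries.coeff_map]
    simp
  have h5 := hasse21 p hp2 (m P) (m Z) (m S)
    (by rw [hcc, cZ]; simp)
    (by rw [hcc, cS, cΞ]; simp)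
    h3 h4
  rw [← h5, hm, PowerSeries.coeff_map]
  simp

/-! ### the parametrisation -/

/-- the Weierstrass coordinate -/
noncomputable def Xw (z : ℂ) : ℂ := X1 z - 23 / 12

theorem param21 (L : PeriodPair) (g2 : L.g₂ = 193 / 12) (g3 : L.g₃ = 575 / 216) :
    Param f21 L Xw where
  diff _ hz := (X1_diff hz).sub_const _
  inv a b c d h z hz := by
    have := X1_inv a b c d (by exact_mod_cast h) z hz
    unfold Xw
    push_cast
    rw [this]
  ode z hz := by
    have h1 : deriv Xw z = deriv X1 z := by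
      have : deriv Xw z = deriv (fun z => X1 z - 23 / 12) z := rfl
      rw [this, deriv_sub_const]
    rw [h1, deriv_X1 hz, g2, g3, gff hz]
    unfold Xw
    have h2 := RR_sq hz
    linear_combination (2 * Real.pi * Complex.I * ff z) ^ 2 * h2
  exp := by
    refine ⟨fun q => xi q - 23 / 12 * q ^ 2, xi_analytic'.sub (by fun_prop), by simp [xi_zero],
      iI_pos.mono fun z hz => ?_⟩
    have := qq_ne z
    unfold Xw
    rw [X1_q hz]
    field_simp
  one := by
    obtain ⟨Ξ, P, rΞ, tΞ, tP, rF, hq⟩ := data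
    exact coeff_one hq (by rw [tP 0 (by norm_num)]; rfl)

/-! ### the values at the cusps -/

lemma tends_cusp {m n : ℂ → ℂ} {r : ℂ} {x : ℂ} (hm : Tendsto n (Hor r) iI)
    (hmn : ∀ z : ℂ, 0 < z.im → m (n z) = z) (hX : QV (fun z => X1 (m z)) x) :
    Tendsto Xw (Hor r) (𝓝 (x - 23 / 12)) := by
  have h1 := (hX.tendsto.comp hm).sub_const (23 / 12)
  refine h1.congr' ?_
  filter_upwards [N974.MF.hor_pos r] with z hz
  simp only [Function.comp_apply]
  rw [hmn z hz]
  rfl

lemma QV_m21 : QV (fun z => X1 (m21 z)) 7 := by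
  refine (((QV.const 7).mul (QV_XW.inv one_ne_zero)).of_eq (iI_pos.mono fun z hz => ?_)).of_val
    (by norm_num)
  have := X1_ne hz
  have := W_ne hz
  rw [X1_m21 hz]
  field_simp

lemma QV_m7 : QV (fun z => X1 (m7 z)) 0 := by
  refine (((QV.const 7).mul QV_iX).of_eq (iI_pos.mono fun z hz => ?_)).of_val
    (by norm_num)
  rw [X1_m7 hz]
  rfl

lemma QV_m3 : QV (fun z => X1 (m3 z)) 1 :=
  QV_XW.of_eq (iI_pos.mono fun z hz => X1_m3 hz)

theorem tends0 : Tendsto Xw (Hor ((0 : ℚ) : ℂ)) (𝓝 (61 / 12)) := by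
  have h := N974.MF.mob_hor_inf (A := 0) (B := -1) (C := 21) (D := 0) (by norm_num) (r := 0)
    (by norm_num) (by norm_num)
  have h' := tends_cusp (m := m21) (x := 7) h (fun z hz => by
    have := z_ne hz
    unfold m21
    push_cast
    field_simp
    ring) QV_m21
  have e : (((0 : ℚ)) : ℂ) = ((0 : ℝ) : ℂ) := by simp
  rw [e]
  convert h' using 2
  norm_num

theorem tends7 : Tendsto Xw (Hor ((1 / 7 : ℚ) : ℂ)) (𝓝 (-11 / 12)) := by
  have h := N974.MF.mob_hor_inf (A := -6) (B := 1) (C := -21) (D := 3) (by norm_num) (r := 1 / 7)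
    (by norm_num) (by norm_num)
  have h' := tends_cusp (m := m3) (x := 1) h (fun z hz => by
    have h1 : (-21 * z + 3 : ℂ) ≠ 0 := by
      intro h
      have := congrArg Complex.im h
      simp at this
      exact hz.ne' this
    unfold m3
    push_cast
    have e1 : 3 * ((-6 * z + 1) / (-21 * z + 3)) - 1 = 3 * z / (-21 * z + 3) := by
      rw [eq_div_iff h1, sub_mul, mul_assoc, div_mul_cancel₀ _ h1]
      ring
    have e2 : 21 * ((-6 * z + 1) / (-21 * z + 3)) - 6 = 3 / (-21 * z + 3) := by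
      rw [eq_div_iff h1, sub_mul, mul_assoc, div_mul_cancel₀ _ h1]
      ring
    rw [e1, e2, div_div_div_cancel_right₀ h1]
    ring) QV_m3
  have e : (((1 / 7 : ℚ)) : ℂ) = ((1 / 7 : ℝ) : ℂ) := by push_cast; rfl
  rw [e]
  convert h' using 2
  norm_num

theorem tends3 : Tendsto Xw (Hor ((1 / 3 : ℚ) : ℂ)) (𝓝 (-23 / 12)) := by
  have h := N974.MF.mob_hor_inf (A := 7) (B := -2) (C := -21) (D := 7) (by norm_num) (r := 1 / 3)
    (by norm_num) (by norm_num)
  have h' := tends_cusp (m := m7) (x := 0) h (fun z hz => by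
    have h1 : (-21 * z + 7 : ℂ) ≠ 0 := by
      intro h
      have := congrArg Complex.im h
      simp at this
      exact hz.ne' this
    unfold m7
    push_cast
    have e1 : 7 * ((7 * z + -2) / (-21 * z + 7)) + 2 = 7 * z / (-21 * z + 7) := by
      rw [eq_div_iff h1, add_mul, mul_assoc, div_mul_cancel₀ _ h1]
      ring
    have e2 : 21 * ((7 * z + -2) / (-21 * z + 7)) + 7 = 7 / (-21 * z + 7) := by
      rw [eq_div_iff h1, add_mul, mul_assoc, div_mul_cancel₀ _ h1]
      ring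
    rw [e1, e2, div_div_div_cancel_right₀ h1]
    ring) QV_m7
  have e : (((1 / 3 : ℚ)) : ℂ) = ((1 / 3 : ℝ) : ℂ) := by push_cast; rfl
  rw [e]
  convert h' using 2
  norm_num

end Pool.Agent.N402.MF21
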