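import Pool.Agent.N402.MF21.Eta
import Pool.Agent.N974.MF.QX

/-!
The first coefficients of the expansions, level 21.
-/

set_option autoImplicit false

open PowerSeries

namespace Pool.Agent.N402.MF21

open Pool.Agent.W97.TW
open Pool.Agent.W97.MT (qq Rep RepC Q_ne Q_ne_pow norm_qq_lt num list_sum_range)
open Pool.Agent.N974.MF (Tr mulL addL subL thL dilL l1 tr_pent)

/-- the expansion of the function `7 W² / X1` -/
noncomputable def xh (q : ℂ) : ℂ := 7 * ((Q q ^ 3)⁻¹ * Q (q ^ 3) * Q (q ^ 7) ^ 3 * (Q (q ^ 21))⁻¹)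

/-- list of `xi` -/
def lxi : List ℤ := [1, 1, 2, 0, 2, 1, 2, -1, 0, 0, 2, -2, 1, -2, 1, -2, -1, 0, -2, -3]

/-- list of `om` -/
def lom : List ℤ := [1, 2, 5, 8, 16, 26, 44, 66, 104, 152, 229, 324, 469, 652, 916, 1250, 1716,
  2306, 3108, 4116]

/-- list of `up` -/
def lup : List ℤ := [1, -10, 35, -32, -85, 168, 59, -42, -656, 102, 1723, -438, -1270, -2186, 1580,
  4546, -1623, -1108, -4590, 628]

/-- list of `xh` -/
def lxh : List ℤ := [7, 21, 63, 147, 336, 693, 1386, 2604, 4788, 8463, 14679, 24759, 41097, 66822,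
  107163, 169092, 263676, 405783, 618093, 931182]

/-- list of the form -/
def lphi : List ℤ := [1, -1, 1, -1, -2, -1, -1, 3, 1, 2, 4, -1, -2, 1, -2, -1, -6, -1, 4, 2]

theorem expansions : ∃ Ξ O U H P : ℤ⟦X⟧, Rep xi Ξ ∧ Rep om O ∧ Rep up U ∧ Rep xh H ∧
    Tr Ξ lxi ∧ Tr O lom ∧ Tr U lup ∧ Tr H lxh ∧
    P * (PowerSeries.X ^ 2 * H - Ξ) = PowerSeries.X * PowerSeries.derivative ℤ O - O ∧
    Tr P lphi := by
  obtain ⟨φ, hφ⟩ : ∃ φ : ℤ⟦X⟧, φ = PowerSeries.pentagonalSeries ℤ := ⟨_, rfl⟩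
  have hR : Rep Q φ := fun q hq => by
    have := Pool.Agent.W598.MT.hasSum_phi q hq
    rw [hφ]
    simpa [Q] using this
  have t1 : Tr φ l1 := hφ ▸ tr_pent
  have h1 : constantCoeff φ = 1 := by
    have := t1 0 (by norm_num)
    simpa [l1] using this
  have three : (3 : ℕ) ≠ 0 := by norm_num
  have seven : (7 : ℕ) ≠ 0 := by norm_num
  have ft : (21 : ℕ) ≠ 0 := by norm_num
  have r3 := hR.expand 3 three
  have r7 := hR.expand 7 seven
  have r21 := hR.expand 21 ft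
  have t3 := t1.expand three
  have t7 := t1.expand seven
  have t21 := t1.expand ft
  set E3 := PowerSeries.expand 3 three φ with hE3
  set E7 := PowerSeries.expand 7 seven φ with hE7
  set E21 := PowerSeries.expand 21 ft φ with hE21
  have c3 : constantCoeff E3 = 1 := by rw [hE3]; simpa using h1
  have c7 : constantCoeff E7 = 1 := by rw [hE7]; simpa using h1
  have c21 : constantCoeff E21 = 1 := by rw [hE21]; simpa using h1
  have hinv : ∀ E : ℤ⟦X⟧, constantCoeff E = 1 → ∃ V : ℤ⟦X⟧, E * V = 1 := fun E hE => by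
    have hu : IsUnit E := by
      rw [PowerSeries.isUnit_iff_constantCoeff, hE]; exact isUnit_one
    exact hu.exists_right_inv
  obtain ⟨V1, hV1⟩ := hinv φ h1
  obtain ⟨V2, hV2⟩ := hinv (φ ^ 2) (by rw [map_pow, h1, one_pow])
  obtain ⟨V3, hV3⟩ := hinv (φ ^ 3) (by rw [map_pow, h1, one_pow])
  obtain ⟨Z1, hZ1⟩ := hinv E21 c21
  obtain ⟨Z2, hZ2⟩ := hinv (E21 ^ 2) (by rw [map_pow, c21, one_pow])
  obtain ⟨Z3, hZ3⟩ := hinv (E21 ^ 3) (by rw [map_pow, c21, one_pow])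
  have i1 := hR.inv hV1 fun q hq => Q_ne hq
  have i2 := (hR.pow 2).inv hV2 fun q hq => pow_ne_zero _ (Q_ne hq)
  have i3 := (hR.pow 3).inv hV3 fun q hq => pow_ne_zero _ (Q_ne hq)
  have j1 := r21.inv hZ1 fun q hq => Q_ne_pow hq ft
  have j2 := (r21.pow 2).inv hZ2 fun q hq => pow_ne_zero _ (Q_ne_pow hq ft)
  have j3 := (r21.pow 3).inv hZ3 fun q hq => pow_ne_zero _ (Q_ne_pow hq ft)
  have tΞ : Tr (V1 * E3 ^ 3 * E7 * Z3) lxi := by
    refine Tr.cancel (W := φ * E21 ^ 3) (b := mulL (Tr.powL (dilL 3 l1) 3) (dilL 7 l1)) ?_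
      (t1.mul (t21.pow 3)) (by rw [map_mul, map_pow, h1, c21]; norm_num) (by decide +kernel)
    refine ((t3.pow 3).mul t7).of_eq ?_
    linear_combination (-(E3 ^ 3 * E7 * (Z3 * E21 ^ 3))) * hV1 - E3 ^ 3 * E7 * hZ3
  have tO : Tr (V2 * E3 ^ 2 * E7 ^ 2 * Z2) lom := by
    refine Tr.cancel (W := φ ^ 2 * E21 ^ 2)
      (b := mulL (Tr.powL (dilL 3 l1) 2) (Tr.powL (dilL 7 l1) 2)) ?_
      ((t1.pow 2).mul (t21.pow 2)) (by rw [map_mul, map_pow, map_pow, h1, c21]; norm_num)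
      (by decide +kernel)
    refine ((t3.pow 2).mul (t7.pow 2)).of_eq ?_
    linear_combination (-(E3 ^ 2 * E7 ^ 2 * (Z2 * E21 ^ 2))) * hV2 - E3 ^ 2 * E7 ^ 2 * hZ2
  have tH : Tr (PowerSeries.C 7 * (V3 * E3 * E7 ^ 3 * Z1)) lxh := by
    refine Tr.cancel (W := φ ^ 3 * E21)
      (b := mulL [7] (mulL (dilL 3 l1) (Tr.powL (dilL 7 l1) 3))) ?_
      ((t1.pow 3).mul t21) (by rw [map_mul, map_pow, h1, c21]; norm_num) (by decide +kernel)
    refine ((Tr.C 7).mul (t3.mul (t7.pow 3))).of_eq ?_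
    linear_combination (-(PowerSeries.C 7 * E3 * E7 ^ 3 * (Z1 * E21))) * hV3 -
      PowerSeries.C 7 * E3 * E7 ^ 3 * hZ1
  have tU : Tr (φ ^ 10 * E3 ^ 2 * E7 ^ 2 * E21 ^ 10) lup :=
    ((((t1.pow 10).mul (t3.pow 2)).mul (t7.pow 2)).mul (t21.pow 10)).congr (by decide +kernel)
  -- the form
  have hu : IsUnit (PowerSeries.X ^ 2 * (PowerSeries.C 7 * (V3 * E3 * E7 ^ 3 * Z1)) -
      V1 * E3 ^ 3 * E7 * Z3) := by
    rw [PowerSeries.isUnit_iff_constantCoeff]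
    have e0 := tΞ 0 (by norm_num)
    have e1 : constantCoeff (V1 * E3 ^ 3 * E7 * Z3) = 1 := by
      rw [← PowerSeries.coeff_zero_eq_constantCoeff_apply, e0]; rfl
    rw [map_sub, e1, map_mul, map_pow, PowerSeries.constantCoeff_X]
    norm_num
  obtain ⟨P, hP⟩ := hu.dvd (a := PowerSeries.X * PowerSeries.derivative ℤ (V2 * E3 ^ 2 * E7 ^ 2 * Z2) -
    V2 * E3 ^ 2 * E7 ^ 2 * Z2)
  refine ⟨V1 * E3 ^ 3 * E7 * Z3, V2 * E3 ^ 2 * E7 ^ 2 * Z2, φ ^ 10 * E3 ^ 2 * E7 ^ 2 * E21 ^ 10,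
    PowerSeries.C 7 * (V3 * E3 * E7 ^ 3 * Z1), P, ?_, ?_, ?_, ?_, tΞ, tO, tU, tH, ?_, ?_⟩
  · exact ((i1.mul (r3.pow 3)).mul r7).mul j3
  · exact ((i2.mul (r3.pow 2)).mul (r7.pow 2)).mul j2
  · exact (((hR.pow 10).mul (r3.pow 2)).mul (r7.pow 2)).mul (r21.pow 10)
  · have := (Rep.C 7).mul (((i3.mul r3).mul (r7.pow 3)).mul j1)
    intro q hq
    have h := this q hq
    simp only [Int.cast_ofNat] at h
    exact h
  · rw [hP]; ring
  · -- the coefficients of the form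
    have t2 := (((Tr.X.pow 2).mul tH).sub tΞ)
    have t3' := tO.theta.sub tO
    rw [hP] at t3'
    have t4 := ((Tr.C (-1)).mul t3')
    have hWc : constantCoeff (PowerSeries.C (-1) * (PowerSeries.X ^ 2 *
        (PowerSeries.C 7 * (V3 * E3 * E7 ^ 3 * Z1)) - V1 * E3 ^ 3 * E7 * Z3)) = 1 := by
      have e0 := tΞ 0 (by norm_num)
      have e1 : constantCoeff (V1 * E3 ^ 3 * E7 * Z3) = 1 := by
        rw [← PowerSeries.coeff_zero_eq_constantCoeff_apply, e0]; rfl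
      rw [map_mul, map_sub, e1, map_mul (PowerSeries.constantCoeff) (PowerSeries.X ^ 2),
        map_pow, PowerSeries.constantCoeff_X]
      simp
    refine Tr.cancel (t4.of_eq ?_) ((Tr.C (-1)).mul t2) hWc (by decide +kernel)
    ring

theorem identity_one {Ξ O : ℤ⟦X⟧} (hΞ : Tr Ξ lxi) (hO : Tr O lom) : PowerSeries.X ^ 20 ∣
    (Ξ ^ 2 + 7 * (PowerSeries.X * O) ^ 2) ^ 2 -
      ((O ^ 2 - 3 * (PowerSeries.X * O) + PowerSeries.X ^ 2) * Ξ) ^ 2 := by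
  refine Tr.dvd_of_zero ?_
  rw [num 7, num 3]
  refine Tr.congr ((((hΞ.pow 2).add ((Tr.C 7).mul ((Tr.X.mul hO).pow 2))).pow 2).sub
    (((((hO.pow 2).sub ((Tr.C 3).mul (Tr.X.mul hO))).add (Tr.X.pow 2)).mul hΞ).pow 2)) ?_
  decide +kernel

theorem identity_two {O U P : ℤ⟦X⟧} (hO : Tr O lom) (hU : Tr U lup) (hP : Tr P lphi) :
    PowerSeries.X ^ 20 ∣ P ^ 6 - U * (O - PowerSeries.X) ^ 4 := by
  refine Tr.dvd_of_zero ?_
  refine Tr.congr ((hP.pow 6).sub (hU.mul ((hO.sub Tr.X).pow 4))) ?_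
  decide +kernel

end Pool.Agent.N402.MF21
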