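import Pool.Agent.N402.MF21.AL
import Pool.Agent.N402.MF21.QX
import Pool.Agent.N402.MF21.CP
import Pool.Agent.W97.MT.Ident

/-!
The behaviour at the four cusps of `X_0(21)` and the relation between the two functions.
-/

set_option autoImplicit false

open Filter Topology

namespace Pool.Agent.N402.MF21

open Pool.Agent.W97.TW
open Pool.Agent.W97.MT (qq tt tt_ne qq_ne tt_pow norm_qq norm_qq_lt eta_mul eta_one G_mul Q_ne
  Q_ne_pow G_ne im_mul ze_dvd I4 z_ne H_open eta_diff QV iI iI_pos QV_Q QV_Q1 QV_of_sq Q_contOn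
  Q_contOn1 qq_cont comp_cont eq_or_eq_neg Rep RepC num mul_zero_or QV_zero_of_dvd Qq_analytic
  tpi_ne hasDerivAt_qq)
open Pool.Agent.N974.MF (Tr)

lemma eta_diffs {z : ℂ} (hz : 0 < z.im) : DifferentiableAt ℂ (fun w : ℂ => ModularForm.eta w) z ∧
    DifferentiableAt ℂ (fun w : ℂ => ModularForm.eta (3 * w)) z ∧
    DifferentiableAt ℂ (fun w : ℂ => ModularForm.eta (7 * w)) z ∧
    DifferentiableAt ℂ (fun w : ℂ => ModularForm.eta (21 * w)) z := by
  have h1 := eta_diff hz 1 (by norm_num)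
  have h3 := eta_diff hz 3 (by norm_num)
  have h7 := eta_diff hz 7 (by norm_num)
  have h21 := eta_diff hz 21 (by norm_num)
  push_cast at h1 h3 h7 h21
  simp only [one_mul] at h1
  exact ⟨h1, h3, h7, h21⟩

lemma eta_nes {z : ℂ} (hz : 0 < z.im) : ModularForm.eta z ≠ 0 ∧ ModularForm.eta (3 * z) ≠ 0 ∧
    ModularForm.eta (7 * z) ≠ 0 ∧ ModularForm.eta (21 * z) ≠ 0 := by
  have h3 := ModularForm.eta_ne_zero (im_mul hz 3 (by norm_num))
  have h7 := ModularForm.eta_ne_zero (im_mul hz 7 (by norm_num))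
  have h21 := ModularForm.eta_ne_zero (im_mul hz 21 (by norm_num))
  push_cast at h3 h7 h21
  exact ⟨ModularForm.eta_ne_zero hz, h3, h7, h21⟩

lemma X1_diff {z : ℂ} (hz : 0 < z.im) : DifferentiableAt ℂ X1 z := by
  obtain ⟨e1, e3, e7, e21⟩ := eta_diffs hz
  obtain ⟨n1, n3, n7, n21⟩ := eta_nes hz
  exact (((e1.inv n1).mul (e3.pow 3)).mul e7).mul ((e21.pow 3).inv (pow_ne_zero _ n21))

lemma W_eq (z : ℂ) : W z = (ModularForm.eta z ^ 2)⁻¹ * ModularForm.eta (3 * z) ^ 2 *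
    ModularForm.eta (7 * z) ^ 2 * (ModularForm.eta (21 * z) ^ 2)⁻¹ := by
  unfold W Gs G
  rw [zpow_neg_one, zpow_neg_one, zpow_one, zpow_one]

lemma W_diff {z : ℂ} (hz : 0 < z.im) : DifferentiableAt ℂ W z := by
  obtain ⟨e1, e3, e7, e21⟩ := eta_diffs hz
  obtain ⟨n1, n3, n7, n21⟩ := eta_nes hz
  have h : W = fun z : ℂ => (ModularForm.eta z ^ 2)⁻¹ * ModularForm.eta (3 * z) ^ 2 *
      ModularForm.eta (7 * z) ^ 2 * (ModularForm.eta (21 * z) ^ 2)⁻¹ := by
    funext z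
    exact W_eq z
  rw [h]
  exact ((((e1.pow 2).inv (pow_ne_zero _ n1)).mul (e3.pow 2)).mul (e7.pow 2)).mul
    ((e21.pow 2).inv (pow_ne_zero _ n21))

lemma X1_cont : ContinuousOn X1 {z : ℂ | 0 < z.im} := fun _ hz =>
  (X1_diff hz).continuousAt.continuousWithinAt

lemma W_cont : ContinuousOn W {z : ℂ | 0 < z.im} := fun _ hz =>
  (W_diff hz).continuousAt.continuousWithinAt

/-- a map of the upper half-plane -/
structure IsMap (m j : ℂ → ℂ) : Prop where
  pos : ∀ z : ℂ, 0 < z.im → 0 < (m z).im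
  der : ∀ z : ℂ, 0 < z.im → HasDerivAt m (j z) z
  jne : ∀ z : ℂ, 0 < z.im → j z ≠ 0
  jdif : ∀ z : ℂ, 0 < z.im → DifferentiableAt ℂ j z

/-- `z ↦ -1/(21z)` -/
noncomputable def m21 (z : ℂ) : ℂ := -1 / (21 * z)

/-- `z ↦ (7z+2)/(21z+7)` -/
noncomputable def m7 (z : ℂ) : ℂ := (7 * z + 2) / (21 * z + 7)

/-- `z ↦ (3z-1)/(21z-6)` -/
noncomputable def m3 (z : ℂ) : ℂ := (3 * z - 1) / (21 * z - 6)

/-- derivative of `m21` -/
noncomputable def j21 (z : ℂ) : ℂ := (21 * z ^ 2)⁻¹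

/-- derivative of `m7` -/
noncomputable def j7 (z : ℂ) : ℂ := (7 * (3 * z + 1) ^ 2)⁻¹

/-- derivative of `m3` -/
noncomputable def j3 (z : ℂ) : ℂ := (3 * (7 * z - 2) ^ 2)⁻¹

lemma map21 : IsMap m21 j21 := by
  have hne : ∀ z : ℂ, 0 < z.im → (21 : ℂ) * z ^ 2 ≠ 0 := fun z hz =>
    mul_ne_zero (by norm_num) (pow_ne_zero 2 (z_ne hz))
  refine ⟨fun z hz => w21_pos hz, fun z hz => ?_, fun z hz => inv_ne_zero (hne z hz),
    fun z hz => ?_⟩
  · have h0 := z_ne hz
    have h1 : HasDerivAt (fun w : ℂ => 21 * w) 21 z := by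
      simpa using (hasDerivAt_id z).const_mul (21 : ℂ)
    have h2 := (hasDerivAt_const z (-1 : ℂ)).div h1 (mul_ne_zero (by norm_num) h0)
    unfold m21 j21
    refine h2.congr_deriv ?_
    field_simp
    ring
  · unfold j21
    exact DifferentiableAt.inv (by fun_prop) (hne z hz)

lemma map7 : IsMap m7 j7 := by
  have hne : ∀ z : ℂ, 0 < z.im → (7 : ℂ) * (3 * z + 1) ^ 2 ≠ 0 := fun z hz =>
    mul_ne_zero (by norm_num) (pow_ne_zero 2 (w7_aux hz))
  refine ⟨fun z hz => w7_pos hz, fun z hz => ?_, fun z hz => inv_ne_zero (hne z hz),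
    fun z hz => ?_⟩
  · have h0 := w7_aux hz
    have h7 : (21 * z + 7 : ℂ) = 7 * (3 * z + 1) := by ring
    have h1 : HasDerivAt (fun w : ℂ => 21 * w + 7) 21 z := by
      simpa using ((hasDerivAt_id z).const_mul (21 : ℂ)).add_const 7
    have h1' : HasDerivAt (fun w : ℂ => 7 * w + 2) 7 z := by
      simpa using ((hasDerivAt_id z).const_mul (7 : ℂ)).add_const 2
    have h2 := h1'.div h1 (by rw [h7]; exact mul_ne_zero (by norm_num) h0)
    unfold m7 j7
    refine h2.congr_deriv ?_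
    rw [h7]
    field_simp
    ring
  · unfold j7
    exact DifferentiableAt.inv (by fun_prop) (hne z hz)

lemma map3 : IsMap m3 j3 := by
  have hne : ∀ z : ℂ, 0 < z.im → (3 : ℂ) * (7 * z - 2) ^ 2 ≠ 0 := fun z hz =>
    mul_ne_zero (by norm_num) (pow_ne_zero 2 (w3_aux hz))
  refine ⟨fun z hz => w3_pos hz, fun z hz => ?_, fun z hz => inv_ne_zero (hne z hz),
    fun z hz => ?_⟩
  · have h0 := w3_aux hz
    have h7 : (21 * z - 6 : ℂ) = 3 * (7 * z - 2) := by ring
    have h1 : HasDerivAt (fun w : ℂ => 21 * w - 6) 21 z := by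
      simpa using ((hasDerivAt_id z).const_mul (21 : ℂ)).sub_const 6
    have h1' : HasDerivAt (fun w : ℂ => 3 * w - 1) 3 z := by
      simpa using ((hasDerivAt_id z).const_mul (3 : ℂ)).sub_const 1
    have h2 := h1'.div h1 (by rw [h7]; exact mul_ne_zero (by norm_num) h0)
    unfold m3 j3
    refine h2.congr_deriv ?_
    rw [h7]
    field_simp
    ring
  · unfold j3
    exact DifferentiableAt.inv (by fun_prop) (hne z hz)

lemma W_m21 {z : ℂ} (hz : 0 < z.im) : W (m21 z) = W z := W_w21 hz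
lemma W_m7 {z : ℂ} (hz : 0 < z.im) : W (m7 z) = (W z)⁻¹ := W_w7 hz
lemma W_m3 {z : ℂ} (hz : 0 < z.im) : W (m3 z) = (W z)⁻¹ := W_w3 hz
lemma X1s_m21 {z : ℂ} (hz : 0 < z.im) : X1 (m21 z) ^ 2 = 49 * W z ^ 4 / X1 z ^ 2 := X1_w21 hz
lemma X1s_m7 {z : ℂ} (hz : 0 < z.im) : X1 (m7 z) ^ 2 = 49 / X1 z ^ 2 := X1_w7 hz
lemma X1s_m3 {z : ℂ} (hz : 0 < z.im) : X1 (m3 z) ^ 2 = X1 z ^ 2 / W z ^ 4 := X1_w3 hz

/-! ### expansions -/

lemma qq_X1 {z : ℂ} (hz : 0 < z.im) : qq z ^ 2 * X1 z = xi (qq z) := by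
  rw [X1_q hz]
  field_simp [qq_ne z]

lemma qq_W {z : ℂ} (hz : 0 < z.im) : qq z * W z = om (qq z) := by
  rw [W_q hz]
  field_simp [qq_ne z]

lemma xi_zero : xi 0 = 1 := by
  unfold xi
  simp [Q_zero]

lemma om_zero : om 0 = 1 := by
  unfold om
  simp [Q_zero]

lemma xh_zero : xh 0 = 7 := by
  unfold xh
  simp [Q_zero]

lemma xi_analytic' : AnalyticAt ℂ xi 0 := by
  have e1 := Qq_analytic 1 one_ne_zero
  have e3 := Qq_analytic 3 (by norm_num)
  have e7 := Qq_analytic 7 (by norm_num)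
  have e21 := Qq_analytic 21 (by norm_num)
  simp only [pow_one] at e1
  exact (((e1.inv (by simp [Q_zero])).mul (e3.pow 3)).mul e7).mul
    ((e21.pow 3).inv (by simp [Q_zero]))

lemma om_analytic' : AnalyticAt ℂ om 0 := by
  have e1 := Qq_analytic 1 one_ne_zero
  have e3 := Qq_analytic 3 (by norm_num)
  have e7 := Qq_analytic 7 (by norm_num)
  have e21 := Qq_analytic 21 (by norm_num)
  simp only [pow_one] at e1
  exact ((((e1.pow 2).inv (by simp [Q_zero])).mul (e3.pow 2)).mul (e7.pow 2)).mul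
    ((e21.pow 2).inv (by simp [Q_zero]))

lemma xh_analytic' : AnalyticAt ℂ xh 0 := by
  have e1 := Qq_analytic 1 one_ne_zero
  have e3 := Qq_analytic 3 (by norm_num)
  have e7 := Qq_analytic 7 (by norm_num)
  have e21 := Qq_analytic 21 (by norm_num)
  simp only [pow_one] at e1
  exact analyticAt_const.mul ((((e1.pow 3).inv (by simp [Q_zero])).mul e3).mul (e7.pow 3) |>.mul
    (e21.inv (by simp [Q_zero])))

lemma QV_xi : QV (fun z => xi (qq z)) 1 := (QV.comp xi_analytic').of_val xi_zero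
lemma QV_om : QV (fun z => om (qq z)) 1 := (QV.comp om_analytic').of_val om_zero
lemma QV_xh : QV (fun z => xh (qq z)) 7 := (QV.comp xh_analytic').of_val xh_zero

lemma QV_iW : QV (fun z => (W z)⁻¹) 0 := by
  refine ((QV.qq'.mul (QV_om.inv one_ne_zero)).of_eq (iI_pos.mono fun z hz => ?_)).of_val
    (by norm_num)
  rw [← qq_W hz]
  have := qq_ne z
  have := W_ne hz
  field_simp

lemma QV_iX : QV (fun z => (X1 z)⁻¹) 0 := by
  refine (((QV.qq'.pow 2).mul (QV_xi.inv one_ne_zero)).of_eq (iI_pos.mono fun z hz => ?_)).of_val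
    (by norm_num)
  rw [← qq_X1 hz]
  have := qq_ne z
  have := X1_ne hz
  field_simp

lemma QV_WX : QV (fun z => W z / X1 z) 0 := by
  refine ((QV.qq'.mul (QV_om.mul (QV_xi.inv one_ne_zero))).of_eq
    (iI_pos.mono fun z hz => ?_)).of_val (by norm_num)
  rw [← qq_X1 hz, ← qq_W hz]
  have := qq_ne z
  have := X1_ne hz
  field_simp

lemma QV_XW : QV (fun z => X1 z / W z ^ 2) 1 := by
  refine ((QV_xi.mul ((QV_om.pow 2).inv (by norm_num))).of_eq
    (iI_pos.mono fun z hz => ?_)).of_val (by norm_num)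
  rw [← qq_X1 hz, ← qq_W hz]
  have := qq_ne z
  have := W_ne hz
  field_simp

/-! ### the relation -/

/-- invariance under `Γ_0(21)` -/
def Inv (g : ℂ → ℂ) : Prop := ∀ a b c d : ℤ, a * d - b * (21 * c) = 1 → ∀ z : ℂ, 0 < z.im →
  g ((a * z + b) / (21 * c * z + d)) = g z

theorem cp_zero {g : ℂ → ℂ} (hd : ∀ z : ℂ, 0 < z.im → DifferentiableAt ℂ g z)
    (hinv : Inv g) (h1 : QV g 0) {v21 v7 v3 : ℂ} (h21 : QV (fun z => g (m21 z)) v21)
    (h7 : QV (fun z => g (m7 z)) v7) (h3 : QV (fun z => g (m3 z)) v3) :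
    ∀ z : ℂ, 0 < z.im → g z = 0 := by
  obtain ⟨c, hc⟩ := CP.s_cp g (fun z hz => (hd z hz).differentiableWithinAt) hinv h1.bounded'
    h21.bounded h7.bounded h3.bounded
  have h3 : QV g c := (QV.const c).of_eq (iI_pos.mono fun z hz => hc z hz)
  have h4 := h3.val_unique h1
  intro z hz
  rw [hc z hz, h4]

/-- the first function -/
noncomputable def D1 (z : ℂ) : ℂ :=
  (X1 z ^ 2 + 7 * W z ^ 2) ^ 2 - (W z ^ 2 - 3 * W z + 1) ^ 2 * X1 z ^ 2

lemma D1_diff {z : ℂ} (hz : 0 < z.im) : DifferentiableAt ℂ D1 z := by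
  have h1 := X1_diff hz
  have h2 := W_diff hz
  unfold D1
  fun_prop

lemma D1_inv : Inv D1 := by
  intro a b c d h z hz
  unfold D1
  rw [X1_sq_gamma h hz, W_gamma h hz]

lemma D1_QV : QV D1 0 := by
  obtain ⟨Ξ, O, U, H, P, rΞ, rO, rU, rH, tΞ, tO, tU, tH, hP, tP⟩ := expansions
  have hid := identity_one tΞ tO
  rw [num 7, num 3] at hid
  have hrep := (((rΞ.pow 2).add ((Rep.C 7).mul ((Rep.X.mul rO).pow 2))).pow 2).sub
    (((((rO.pow 2).sub ((Rep.C 3).mul (Rep.X.mul rO))).add (Rep.X.pow 2)).mul rΞ).pow 2)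
  refine QV_zero_of_dvd (m := 8) hrep (dvd_trans (pow_dvd_pow _ (by norm_num)) hid) ?_
  intro z hz
  unfold D1
  rw [← qq_X1 hz, ← qq_W hz]
  push_cast
  ring

theorem D1_zero : ∀ z : ℂ, 0 < z.im → D1 z = 0 := by
  refine cp_zero (fun z hz => D1_diff hz) D1_inv D1_QV
    (((QV.const 49).mul ((QV_WX.pow 4).mul D1_QV)).of_eq (iI_pos.mono fun z hz => ?_))
    ((((((QV.const 49).mul (QV_iX.pow 2)).add ((QV.const 7).mul (QV_iW.pow 2))).pow 2).sub
      (((((QV_iW.pow 2).sub ((QV.const 3).mul QV_iW)).add (QV.const 1)).pow 2).mul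
      ((QV.const 49).mul (QV_iX.pow 2)))).of_eq (iI_pos.mono fun z hz => ?_))
    (((((QV_XW.pow 2).add ((QV.const 7).mul (QV_iW.pow 2))).pow 2).sub
      (((((QV_iW.pow 2).sub ((QV.const 3).mul QV_iW)).add (QV.const 1)).pow 2).mul
      (QV_XW.pow 2))).of_eq (iI_pos.mono fun z hz => ?_))
  · have h1 := X1_ne hz
    have h2 := W_ne hz
    have hX := X1s_m21 hz
    unfold D1
    rw [hX, W_m21 hz]
    field_simp
    ring
  · have h1 := X1_ne hz
    have h2 := W_ne hz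
    have hX := X1s_m7 hz
    unfold D1
    rw [hX, W_m7 hz]
    field_simp
  · have h1 := X1_ne hz
    have h2 := W_ne hz
    have hX := X1s_m3 hz
    unfold D1
    rw [hX, W_m3 hz]
    field_simp

lemma QV_lead (c : ℂ) : QV (fun z => qq z ^ 4 * (X1 z ^ 2 + 7 * W z ^ 2 +
    c * ((W z ^ 2 - 3 * W z + 1) * X1 z))) (1 + c) := by
  refine (((QV_xi.pow 2).add ((QV.const 7).mul ((QV.qq'.mul QV_om).pow 2))).add
    ((QV.const c).mul ((((QV_om.pow 2).sub ((QV.const 3).mul (QV.qq'.mul QV_om))).add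
    (QV.qq'.pow 2)).mul QV_xi))).of_eq (iI_pos.mono fun z hz => ?_) |>.of_val (by ring)
  rw [← qq_X1 hz, ← qq_W hz]
  ring

/-- the equation of the curve -/
theorem rel : ∀ z : ℂ, 0 < z.im →
    X1 z ^ 2 + 7 * W z ^ 2 = (W z ^ 2 - 3 * W z + 1) * X1 z := by
  have h0 := D1_zero
  have h := mul_zero_or (f := fun z => X1 z ^ 2 + 7 * W z ^ 2 - (W z ^ 2 - 3 * W z + 1) * X1 z)
      (g := fun z => X1 z ^ 2 + 7 * W z ^ 2 + (W z ^ 2 - 3 * W z + 1) * X1 z) (fun z hz => by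
        have h1 := X1_diff hz
        have h2 := W_diff hz
        fun_prop) (fun z hz => by
        have h1 := X1_diff hz
        have h2 := W_diff hz
        fun_prop) (fun z hz => by
        have := h0 z hz
        unfold D1 at this
        linear_combination this)
  rcases h with h | h
  · intro z hz
    exact sub_eq_zero.1 (h z hz)
  · exfalso
    have h1 := (QV_lead 1).of_eq (f := fun _ => 0) (iI_pos.mono fun z hz => by
      have := h z hz
      linear_combination (-(qq z ^ 4)) * this)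
    have h2 := h1.val_unique (QV.const 0)
    norm_num at h2

/-- no sign -/
lemma lead_ne (h : ∀ z : ℂ, 0 < z.im → X1 z ^ 2 + 7 * W z ^ 2 = 0) : False := by
  have h3 := (QV_lead 0).of_eq (f := fun _ => 0) (iI_pos.mono fun z hz => by
    have := h z hz
    linear_combination (-(qq z ^ 4)) * this)
  have h4 := h3.val_unique (QV.const 0)
  norm_num at h4

/-- `X1` is invariant -/
theorem X1_inv : Inv X1 := by
  intro a b c d h
  have hm : ∀ z : ℂ, 0 < z.im → 0 < ((a * z + b) / (21 * c * z + d) : ℂ).im := fun z hz =>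
    (G_gamma h hz).1
  have hc : ContinuousOn (fun z : ℂ => X1 ((a * z + b) / (21 * c * z + d))) {z : ℂ | 0 < z.im} := by
    refine X1_cont.comp ?_ hm
    intro z hz
    have := (G_gamma h hz).2.1
    exact ContinuousAt.continuousWithinAt (ContinuousAt.div (by fun_prop) (by fun_prop) this)
  rcases eq_or_eq_neg hc X1_cont (fun z hz => X1_sq_gamma h hz) (fun z hz => X1_ne hz) with h1 | h1
  · exact h1
  · refine (lead_ne fun z hz => ?_).elim
    have h3 := rel z hz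
    have h4 := rel _ (hm z hz)
    rw [h1 z hz, W_gamma h hz] at h4
    linear_combination (1 / 2 : ℂ) * h3 + (1 / 2 : ℂ) * h4

lemma W_inv : Inv W := fun _ _ _ _ h _ hz => W_gamma h hz

lemma comp_contX {m j : ℂ → ℂ} (h : IsMap m j) :
    ContinuousOn (fun z => X1 (m z)) {z : ℂ | 0 < z.im} := comp_cont h.pos h.der X1_cont

lemma X1_m21 {z : ℂ} (hz : 0 < z.im) : X1 (m21 z) = 7 * W z ^ 2 / X1 z := by
  have hc : ContinuousOn (fun z : ℂ => 7 * W z ^ 2 / X1 z) {z : ℂ | 0 < z.im} :=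
    (continuousOn_const.mul (W_cont.pow 2)).div X1_cont fun z hz => X1_ne hz
  rcases eq_or_eq_neg (comp_contX map21) hc (fun z hz => by
      rw [X1s_m21 hz, div_pow, mul_pow]
      ring) (fun z hz => div_ne_zero (mul_ne_zero (by norm_num) (pow_ne_zero 2 (W_ne hz)))
        (X1_ne hz)) with h | h
  · exact h z hz
  · exfalso
    have h2 : ∀ z : ℂ, 0 < z.im → X1 z ^ 2 + 7 * W z ^ 2 = 0 := by
      intro z hz
      have h1 := X1_ne hz
      have h2 := W_ne hz
      have h3 := rel z hz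
      have h4 := rel _ (map21.pos z hz)
      rw [h z hz, W_m21 hz] at h4
      field_simp at h4
      have h5 : (7 : ℂ) * W z ^ 2 ≠ 0 := mul_ne_zero (by norm_num) (pow_ne_zero 2 h2)
      have h6 : (7 * W z ^ 2) * (X1 z ^ 2 + 7 * W z ^ 2) = 0 := by
        linear_combination (7 * W z ^ 2 / 2) * h3 + (7 * W z ^ 2 / 2) * h4
      exact (mul_eq_zero.1 h6).resolve_left h5
    exact lead_ne h2

lemma X1_m7 {z : ℂ} (hz : 0 < z.im) : X1 (m7 z) = 7 / X1 z := by
  have hc : ContinuousOn (fun z : ℂ => 7 / X1 z) {z : ℂ | 0 < z.im} :=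
    continuousOn_const.div X1_cont fun z hz => X1_ne hz
  rcases eq_or_eq_neg (comp_contX map7) hc (fun z hz => by
      rw [X1s_m7 hz, div_pow]
      norm_num) (fun z hz => div_ne_zero (by norm_num) (X1_ne hz)) with h | h
  · exact h z hz
  · exfalso
    refine lead_ne fun z hz => ?_
    have h1 := X1_ne hz
    have h2 := W_ne hz
    have h3 := rel z hz
    have h4 := rel _ (map7.pos z hz)
    rw [h z hz, W_m7 hz] at h4
    field_simp at h4
    linear_combination (1 / 2 : ℂ) * h3 + (1 / 2 : ℂ) * h4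

lemma X1_m3 {z : ℂ} (hz : 0 < z.im) : X1 (m3 z) = X1 z / W z ^ 2 := by
  have hc : ContinuousOn (fun z : ℂ => X1 z / W z ^ 2) {z : ℂ | 0 < z.im} :=
    X1_cont.div (W_cont.pow 2) fun z hz => pow_ne_zero 2 (W_ne hz)
  rcases eq_or_eq_neg (comp_contX map3) hc (fun z hz => by
      rw [X1s_m3 hz, div_pow]
      ring) (fun z hz => div_ne_zero (X1_ne hz) (pow_ne_zero 2 (W_ne hz))) with h | h
  · exact h z hz
  · exfalso
    refine lead_ne fun z hz => ?_
    have h1 := X1_ne hz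
    have h2 := W_ne hz
    have h3 := rel z hz
    have h4 := rel _ (map3.pos z hz)
    rw [h z hz, W_m3 hz] at h4
    field_simp at h4
    linear_combination (1 / 2 : ℂ) * h3 + (1 / 2 : ℂ) * h4

end Pool.Agent.N402.MF21
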