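import Pool.Agent.N402.MF21.Cusps

/-!
The differential form on `X_0(21)`.
-/

set_option autoImplicit false

open Filter Topology

namespace Pool.Agent.N402.MF21

open Pool.Agent.W97.TW
open Pool.Agent.W97.MT (qq tt tt_ne qq_ne tt_pow norm_qq norm_qq_lt eta_mul eta_one G_mul Q_ne
  Q_ne_pow G_ne im_mul ze_dvd I4 z_ne H_open eta_diff QV iI iI_pos QV_Q QV_Q1 QV_of_sq Q_contOn
  Q_contOn1 qq_cont comp_cont eq_or_eq_neg Rep RepC num mul_zero_or QV_zero_of_dvd Qq_analytic
  tpi_ne hasDerivAt_qq)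
open Pool.Agent.N974.MF (Tr)

/-- the square root of `Q(W)` -/
noncomputable def T (z : ℂ) : ℂ := 7 * W z ^ 2 / X1 z - X1 z

lemma T_diff {z : ℂ} (hz : 0 < z.im) : DifferentiableAt ℂ T z := by
  have h1 := X1_diff hz
  have h2 := W_diff hz
  have h3 := X1_ne hz
  unfold T
  exact (((h2.pow 2).const_mul 7).div h1 h3).sub h1

lemma T_inv : Inv T := by
  intro a b c d h z hz
  unfold T
  rw [X1_inv a b c d h z hz, W_gamma h hz]

lemma T_add {z : ℂ} (hz : 0 < z.im) : T z + 2 * X1 z = W z ^ 2 - 3 * W z + 1 := by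
  have h1 := X1_ne hz
  have h2 := rel z hz
  unfold T
  field_simp
  linear_combination h2

lemma X1_eq {z : ℂ} (hz : 0 < z.im) : X1 z = (W z ^ 2 - 3 * W z + 1 - T z) / 2 := by
  linear_combination (1 / 2 : ℂ) * T_add hz

/-- the quartic -/
lemma T_sq {z : ℂ} (hz : 0 < z.im) : T z ^ 2 =
    W z ^ 4 - 6 * W z ^ 3 - 17 * W z ^ 2 - 6 * W z + 1 := by
  have h1 := X1_ne hz
  have h2 := rel z hz
  have h3 := T_add hz
  have h4 : X1 z * (T z + X1 z) = 7 * W z ^ 2 := by
    unfold T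
    field_simp
    ring
  linear_combination (T z + 2 * X1 z + (W z ^ 2 - 3 * W z + 1)) * h3 - 4 * h4

lemma T_m21 {z : ℂ} (hz : 0 < z.im) : T (m21 z) = -T z := by
  have h1 := X1_ne hz
  have h2 := W_ne hz
  unfold T
  rw [X1_m21 hz, W_m21 hz]
  field_simp
  ring

lemma T_m7 {z : ℂ} (hz : 0 < z.im) : T (m7 z) = -(T z / W z ^ 2) := by
  have h1 := X1_ne hz
  have h2 := W_ne hz
  unfold T
  rw [X1_m7 hz, W_m7 hz]
  field_simp
  ring

lemma T_m3 {z : ℂ} (hz : 0 < z.im) : T (m3 z) = T z / W z ^ 2 := by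
  have h1 := X1_ne hz
  have h2 := W_ne hz
  unfold T
  rw [X1_m3 hz, W_m3 hz]
  field_simp

lemma qq_T {z : ℂ} (hz : 0 < z.im) : qq z ^ 2 * T z = qq z ^ 2 * xh (qq z) - xi (qq z) := by
  have hq := norm_qq_lt hz
  have e1 := Q_ne hq
  have e3 := Q_ne_pow hq (d := 3) (by norm_num)
  have e7 := Q_ne_pow hq (d := 7) (by norm_num)
  have e21 := Q_ne_pow hq (d := 21) (by norm_num)
  have h0 := qq_ne z
  unfold T
  rw [X1_q hz, W_q hz]
  unfold om xi xh
  field_simp

lemma QV_qT : QV (fun z => qq z ^ 2 * T z) (-1) := by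
  refine (((QV.qq'.pow 2).mul QV_xh).sub QV_xi).of_eq (iI_pos.mono fun z hz => ?_) |>.of_val
    (by norm_num)
  exact qq_T hz

/-- `T` is not identically zero -/
lemma T_nez (h : ∀ z : ℂ, 0 < z.im → T z = 0) : False := by
  have h1 := QV_qT.of_eq (f := fun _ => 0) (iI_pos.mono fun z hz => by rw [h z hz]; ring)
  have h2 := h1.val_unique (QV.const 0)
  norm_num at h2

/-- the form `dW / (2πi T)` -/
noncomputable def ff (z : ℂ) : ℂ :=
  ((1164 + 974 * W z - 196 * W z ^ 2) * T z * deriv W z +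
    2 * (-58 - 673 * W z - 317 * W z ^ 2 + 49 * W z ^ 3) * deriv T z) /
  (2 * Real.pi * Complex.I * 1512)

lemma dW_diff {z : ℂ} (hz : 0 < z.im) : DifferentiableAt ℂ (deriv W) z := by
  have h1 : DifferentiableOn ℂ W {z : ℂ | 0 < z.im} := fun w hw =>
    (W_diff hw).differentiableWithinAt
  exact (h1.deriv H_open).differentiableAt (H_open.mem_nhds hz)

lemma dT_diff {z : ℂ} (hz : 0 < z.im) : DifferentiableAt ℂ (deriv T) z := by
  have h1 : DifferentiableOn ℂ T {z : ℂ | 0 < z.im} := fun w hw =>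
    (T_diff hw).differentiableWithinAt
  exact (h1.deriv H_open).differentiableAt (H_open.mem_nhds hz)

lemma ff_diff {z : ℂ} (hz : 0 < z.im) : DifferentiableAt ℂ ff z := by
  have h1 := W_diff hz
  have h2 := T_diff hz
  have h3 := dW_diff hz
  have h4 := dT_diff hz
  unfold ff
  fun_prop

/-- the derivative of the equation -/
lemma TT' {z : ℂ} (hz : 0 < z.im) : 2 * T z * deriv T z =
    (4 * W z ^ 3 - 18 * W z ^ 2 - 34 * W z - 6) * deriv W z := by
  have h1 := (W_diff hz).hasDerivAt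
  have h2 := (T_diff hz).hasDerivAt
  have h3 : (fun z => T z ^ 2) =ᶠ[𝓝 z]
      fun z => W z ^ 4 - 6 * W z ^ 3 - 17 * W z ^ 2 - 6 * W z + 1 := by
    filter_upwards [H_open.mem_nhds hz] with w hw
    exact T_sq hw
  have h4 := h3.deriv_eq
  have h5 := (h2.fun_pow 2).deriv
  have h6 := ((((h1.fun_pow 4).sub ((h1.fun_pow 3).const_mul 6)).sub
    ((h1.fun_pow 2).const_mul 17)).sub (h1.const_mul 6)).add_const 1 |>.deriv
  have h7 : deriv (fun z => W z ^ 4 - 6 * W z ^ 3 - 17 * W z ^ 2 - 6 * W z + 1) z = _ := h6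
  rw [h5, h7] at h4
  push_cast at h4
  linear_combination h4

theorem deriv_W {z : ℂ} (hz : 0 < z.im) : deriv W z = 2 * Real.pi * Complex.I * ff z * T z := by
  have h1 := TT' hz
  have h2 := T_sq hz
  have h3 : (2 * Real.pi * Complex.I * 1512 : ℂ) * ff z =
      (1164 + 974 * W z - 196 * W z ^ 2) * T z * deriv W z +
      2 * (-58 - 673 * W z - 317 * W z ^ 2 + 49 * W z ^ 3) * deriv T z := by
    unfold ff
    rw [mul_div_cancel₀ _ (mul_ne_zero tpi_ne (by norm_num))]
  linear_combination (-(1 : ℂ) / 1512) * (T z * h3 + (1164 + 974 * W z - 196 * W z ^ 2) *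
    deriv W z * h2 + (-58 - 673 * W z - 317 * W z ^ 2 + 49 * W z ^ 3) * h1)

theorem deriv_T : ∀ z : ℂ, 0 < z.im → deriv T z = 2 * Real.pi * Complex.I * ff z *
    (2 * W z ^ 3 - 9 * W z ^ 2 - 17 * W z - 3) := by
  have h := mul_zero_or (f := T) (g := fun z => deriv T z - 2 * Real.pi * Complex.I * ff z *
    (2 * W z ^ 3 - 9 * W z ^ 2 - 17 * W z - 3)) (fun z hz => T_diff hz) (fun z hz => by
      have h1 := dT_diff hz
      have h2 := ff_diff hz
      have h3 := W_diff hz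
      fun_prop) (fun z hz => by
      have h1 := TT' hz
      have h2 := deriv_W hz
      linear_combination (1 / 2 : ℂ) * h1 + (2 * W z ^ 3 - 9 * W z ^ 2 - 17 * W z - 3) * h2)
  rcases h with h | h
  · exact (T_nez h).elim
  · intro z hz
    exact sub_eq_zero.1 (h z hz)

/-- `σ = 2y + x` -/
noncomputable def RR (z : ℂ) : ℂ :=
  ((2 * W z - 3) * T z - (2 * W z ^ 3 - 9 * W z ^ 2 - 17 * W z - 3)) / 2

lemma RR_diff {z : ℂ} (hz : 0 < z.im) : DifferentiableAt ℂ RR z := by
  have h1 := W_diff hz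
  have h2 := T_diff hz
  unfold RR
  fun_prop

lemma RR_sq {z : ℂ} (hz : 0 < z.im) :
    RR z ^ 2 = 4 * X1 z ^ 3 - 23 * X1 z ^ 2 + 28 * X1 z := by
  have h1 := T_sq hz
  unfold RR
  rw [X1_eq hz]
  linear_combination (T z / 2 + (2 * W z - 3) ^ 2 / 4 - 3 * (W z ^ 2 - 3 * W z + 1) / 2 +
    23 / 4) * h1

theorem deriv_X1 {z : ℂ} (hz : 0 < z.im) :
    deriv X1 z = 2 * Real.pi * Complex.I * ff z * RR z := by
  have h1 := (W_diff hz).hasDerivAt
  have h2 := (T_diff hz).hasDerivAt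
  have h3 : X1 =ᶠ[𝓝 z] fun z => (W z ^ 2 - 3 * W z + 1 - T z) / 2 := by
    filter_upwards [H_open.mem_nhds hz] with w hw
    exact X1_eq hw
  have h4 := h3.deriv_eq
  have h5 := (((((h1.fun_pow 2).sub (h1.const_mul 3)).add_const 1).sub h2).div_const 2).deriv
  have h6 : deriv (fun z => (W z ^ 2 - 3 * W z + 1 - T z) / 2) z = _ := h5
  rw [h6] at h4
  rw [h4, deriv_W hz, deriv_T z hz]
  unfold RR
  push_cast
  ring

/-! ### the action of the group -/

lemma hasDerivAt_gamma {a b c d : ℤ} (h : a * d - b * (21 * c) = 1) {z : ℂ} (hz : 0 < z.im) :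
    HasDerivAt (fun z : ℂ => (a * z + b) / (21 * c * z + d)) (((21 * c * z + d) ^ 2)⁻¹) z := by
  have h0 := (G_gamma h hz).2.1
  have h1 : HasDerivAt (fun w : ℂ => (a : ℂ) * w + b) a z := by
    simpa using ((hasDerivAt_id z).const_mul (a : ℂ)).add_const (b : ℂ)
  have h2 : HasDerivAt (fun w : ℂ => 21 * (c : ℂ) * w + d) (21 * c) z := by
    simpa using ((hasDerivAt_id z).const_mul (21 * (c : ℂ))).add_const (d : ℂ)
  refine (h1.div h2 h0).congr_deriv ?_
  have h3 : (a : ℂ) * d - b * (21 * c) = 1 := by exact_mod_cast h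
  field_simp
  linear_combination h3

/-- the derivative of an invariant function is of weight two -/
lemma deriv_gamma {g : ℂ → ℂ} (hg : Inv g) (hd : ∀ z : ℂ, 0 < z.im → DifferentiableAt ℂ g z)
    {a b c d : ℤ} (h : a * d - b * (21 * c) = 1) {z : ℂ} (hz : 0 < z.im) :
    deriv g ((a * z + b) / (21 * c * z + d)) = (21 * c * z + d) ^ 2 * deriv g z := by
  have h0 := (G_gamma h hz).2.1
  have hm := (G_gamma h hz).1
  have h1 := (hd _ hm).hasDerivAt.comp z (hasDerivAt_gamma h hz)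
  have h2 : g ∘ (fun z : ℂ => (a * z + b) / (21 * c * z + d)) =ᶠ[𝓝 z] g := by
    filter_upwards [H_open.mem_nhds hz] with w hw
    exact hg a b c d h w hw
  have h3 := (h1.congr_of_eventuallyEq h2.symm).deriv
  rw [h3, mul_comm (deriv g _), ← mul_assoc, mul_inv_cancel₀ (pow_ne_zero 2 h0), one_mul]

/-- `ff` is of weight two -/
theorem ff_gamma {a b c d : ℤ} (h : a * d - b * (21 * c) = 1) {z : ℂ} (hz : 0 < z.im) :
    ff ((a * z + b) / (21 * c * z + d)) = (21 * c * z + d) ^ 2 * ff z := by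
  unfold ff
  rw [W_gamma h hz, T_inv a b c d h z hz, deriv_gamma W_inv (fun z hz => W_diff hz) h hz,
    deriv_gamma T_inv (fun z hz => T_diff hz) h hz]
  ring

/-- the chain rule -/
lemma deriv_map {m j : ℂ → ℂ} (h : IsMap m j) {g k : ℂ → ℂ}
    (hd : ∀ z : ℂ, 0 < z.im → DifferentiableAt ℂ g z)
    (hk : ∀ z : ℂ, 0 < z.im → g (m z) = k z) {z : ℂ} (hz : 0 < z.im) :
    deriv g (m z) * j z = deriv k z := by
  have h1 := (hd _ (h.pos z hz)).hasDerivAt.comp z (h.der z hz)
  have h2 : g ∘ m =ᶠ[𝓝 z] k := by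
    filter_upwards [H_open.mem_nhds hz] with w hw
    exact hk w hw
  exact ((h1.congr_of_eventuallyEq h2.symm).deriv).symm

theorem ff_m21 {z : ℂ} (hz : 0 < z.im) : ff (m21 z) * j21 z = -ff z := by
  have h1 := deriv_map map21 (fun z hz => W_diff hz) (fun z hz => W_m21 hz) hz
  have h2 := deriv_map map21 (fun z hz => T_diff hz) (fun z hz => T_m21 hz) hz
  have h3 : deriv (fun z => -T z) z = -deriv T z := (T_diff hz).hasDerivAt.neg.deriv
  rw [h3] at h2
  unfold ff
  rw [W_m21 hz, T_m21 hz]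
  have h4 : ∀ A B κ : ℂ, (A * -T z * deriv W (m21 z) + 2 * B * deriv T (m21 z)) / κ * j21 z =
      (A * -T z * (deriv W (m21 z) * j21 z) + 2 * B * (deriv T (m21 z) * j21 z)) / κ := by
    intro A B κ
    ring
  rw [h4, h1, h2]
  ring

lemma compm_diff {m j g : ℂ → ℂ} (h : IsMap m j) (hd : ∀ z : ℂ, 0 < z.im → DifferentiableAt ℂ g z)
    {z : ℂ} (hz : 0 < z.im) : DifferentiableAt ℂ (fun z => g (m z)) z :=
  DifferentiableAt.comp z (hd _ (h.pos z hz)) (h.der z hz).differentiableAt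

lemma iW_deriv {z : ℂ} (hz : 0 < z.im) : deriv (fun z => (W z)⁻¹) z = -deriv W z / W z ^ 2 :=
  ((W_diff hz).hasDerivAt.inv (W_ne hz)).deriv

theorem ff_m7 : ∀ z : ℂ, 0 < z.im → ff (m7 z) * j7 z = ff z := by
  have h := mul_zero_or (f := T) (g := fun z => ff (m7 z) * j7 z - ff z) (fun z hz => T_diff hz)
    (fun z hz => ((compm_diff map7 (fun z hz => ff_diff hz) hz).mul (map7.jdif z hz)).sub
      (ff_diff hz)) (fun z hz => by
      have h1 := deriv_map map7 (fun z hz => W_diff hz) (fun z hz => W_m7 hz) hz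
      have h2 := deriv_W hz
      have h3 := deriv_W (map7.pos z hz)
      have h0 := W_ne hz
      rw [iW_deriv hz, h3, h2, T_m7 hz] at h1
      have hpi := tpi_ne
      have h4 : (2 * Real.pi * Complex.I / W z ^ 2) * (T z * (ff (m7 z) * j7 z - ff z)) = 0 := by
        linear_combination (-1 : ℂ) * h1
      exact (mul_eq_zero.1 h4).resolve_left (div_ne_zero hpi (pow_ne_zero 2 h0)))
  rcases h with h | h
  · exact (T_nez h).elim
  · intro z hz
    exact sub_eq_zero.1 (h z hz)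

theorem ff_m3 : ∀ z : ℂ, 0 < z.im → ff (m3 z) * j3 z = -ff z := by
  have h := mul_zero_or (f := T) (g := fun z => ff (m3 z) * j3 z + ff z) (fun z hz => T_diff hz)
    (fun z hz => ((compm_diff map3 (fun z hz => ff_diff hz) hz).mul (map3.jdif z hz)).add
      (ff_diff hz)) (fun z hz => by
      have h1 := deriv_map map3 (fun z hz => W_diff hz) (fun z hz => W_m3 hz) hz
      have h2 := deriv_W hz
      have h3 := deriv_W (map3.pos z hz)
      have h0 := W_ne hz
      rw [iW_deriv hz, h3, h2, T_m3 hz] at h1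
      have hpi := tpi_ne
      have h4 : (2 * Real.pi * Complex.I / W z ^ 2) * (T z * (ff (m3 z) * j3 z + ff z)) = 0 := by
        linear_combination h1
      exact (mul_eq_zero.1 h4).resolve_left (div_ne_zero hpi (pow_ne_zero 2 h0)))
  rcases h with h | h
  · exact (T_nez h).elim
  · intro z hz
    exact eq_neg_of_add_eq_zero_left (h z hz)

/-! ### the expansion -/

/-- the derivative of `W` in terms of `q` -/
lemma dW_q {O : PowerSeries ℤ} (hO : Rep om O) {z : ℂ} (hz : 0 < z.im) :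
    qq z * deriv W z = 2 * Real.pi * Complex.I * (qq z * deriv om (qq z) - om (qq z)) := by
  have hx : DifferentiableAt ℂ om (qq z) :=
    (RepC.differentiableOn hO).differentiableAt (Metric.isOpen_ball.mem_nhds
      (by simpa using norm_qq_lt hz))
  have hq := qq_ne z
  have h1 := (hx.hasDerivAt.comp z (hasDerivAt_qq z)).div (hasDerivAt_qq z) hq
  have h2 : W =ᶠ[𝓝 z] (om ∘ qq) / qq := by
    filter_upwards [H_open.mem_nhds hz] with w hw
    exact W_q hw
  have h3 := (h1.congr_of_eventuallyEq h2).deriv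
  rw [h3]
  simp only [Function.comp_apply]
  field_simp

/-- the derivative of `X1` in terms of `q` -/
lemma dX_q {Ξ : PowerSeries ℤ} (hΞ : Rep xi Ξ) {z : ℂ} (hz : 0 < z.im) :
    qq z ^ 2 * deriv X1 z = 2 * Real.pi * Complex.I * (qq z * deriv xi (qq z) - 2 * xi (qq z)) := by
  have hx : DifferentiableAt ℂ xi (qq z) :=
    (RepC.differentiableOn hΞ).differentiableAt (Metric.isOpen_ball.mem_nhds
      (by simpa using norm_qq_lt hz))
  have hq := qq_ne z
  have h1 := (hx.hasDerivAt.comp z (hasDerivAt_qq z)).div ((hasDerivAt_qq z).pow 2)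
    (pow_ne_zero 2 hq)
  have h2 : X1 =ᶠ[𝓝 z] (xi ∘ qq) / (qq ^ 2) := by
    filter_upwards [H_open.mem_nhds hz] with w hw
    exact X1_q hw
  have h3 := (h1.congr_of_eventuallyEq h2).deriv
  rw [h3]
  simp only [Function.comp_apply, Pi.pow_apply]
  field_simp
  push_cast
  ring

/-- the form in terms of `q` -/
lemma ff_q' {O : PowerSeries ℤ} (hO : Rep om O) {z : ℂ} (hz : 0 < z.im) :
    ff z * (qq z ^ 2 * xh (qq z) - xi (qq z)) = qq z * (qq z * deriv om (qq z) - om (qq z)) := by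
  have h1 := dW_q hO hz
  rw [deriv_W hz] at h1
  rw [← qq_T hz]
  have h2 : (2 * Real.pi * Complex.I) * (ff z * (qq z ^ 2 * T z) -
      qq z * (qq z * deriv om (qq z) - om (qq z))) = 0 := by
    linear_combination (qq z) * h1
  exact sub_eq_zero.1 ((mul_eq_zero.1 h2).resolve_left tpi_ne)

lemma QV_ff : QV ff 0 := by
  obtain ⟨Ξ, O, U, H, P, rΞ, rO, rU, rH, tΞ, tO, tU, tH, hP, tP⟩ := expansions
  have h1 : AnalyticAt ℂ (deriv om) 0 := om_analytic'.deriv
  have h2 : QV (fun z => qq z ^ 2 * xh (qq z) - xi (qq z)) (-1) :=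
    ((((QV.qq'.pow 2).mul QV_xh).sub QV_xi)).of_val (by norm_num)
  refine ((QV.qq'.mul ((QV.qq'.mul (QV.comp h1)).sub QV_om)).mul
    (h2.inv (by norm_num))).of_eq ?_ |>.of_val (by ring)
  have h3 : ∀ᶠ z in iI, qq z ^ 2 * xh (qq z) - xi (qq z) ≠ 0 :=
    h2.tendsto.eventually_ne (by norm_num)
  filter_upwards [iI_pos, h3] with z hz hne
  have h4 := ff_q' rO hz
  rw [← h4]
  field_simp

end Pool.Agent.N402.MF21
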