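import Pool.Agent.W97.MT.QV
import Pool.Agent.W97.MT.Stm

/-!
Eta quotients on `X_0(21)`.
-/

set_option autoImplicit false

open UpperHalfPlane MatrixGroups CongruenceSubgroup Filter Topology
open scoped ModularForm Pointwise

namespace Pool.Agent.N402.MF21

open Pool.Agent.W97.TW
open Pool.Agent.W97.MT (qq tt tt_ne qq_ne tt_pow norm_qq norm_qq_lt eta_mul eta_one G_mul Q_ne
  Q_ne_pow G_ne im_mul ze_dvd)

/-- the function `x + 2` -/
noncomputable def X1 (z : ℂ) : ℂ :=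
  (ModularForm.eta z)⁻¹ * ModularForm.eta (3 * z) ^ 3 * ModularForm.eta (7 * z) *
    (ModularForm.eta (21 * z) ^ 3)⁻¹

/-- general product of powers of `η²` -/
noncomputable def Gs (a b c d : ℤ) (z : ℂ) : ℂ :=
  G z ^ a * G (3 * z) ^ b * G (7 * z) ^ c * G (21 * z) ^ d

/-- the function with simple poles at the cusps `∞` and `0` -/
noncomputable def W (z : ℂ) : ℂ := Gs (-1) 1 1 (-1) z

/-- the eta product of weight `12` -/
noncomputable def U (z : ℂ) : ℂ := Gs 5 1 1 5 z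

/-- the expansion of `X1` -/
noncomputable def xi (q : ℂ) : ℂ := (Q q)⁻¹ * Q (q ^ 3) ^ 3 * Q (q ^ 7) * (Q (q ^ 21) ^ 3)⁻¹

/-- the expansion of `W` -/
noncomputable def om (q : ℂ) : ℂ :=
  (Q q ^ 2)⁻¹ * Q (q ^ 3) ^ 2 * Q (q ^ 7) ^ 2 * (Q (q ^ 21) ^ 2)⁻¹

/-- the expansion of `U` -/
noncomputable def up (q : ℂ) : ℂ :=
  Q q ^ 10 * Q (q ^ 3) ^ 2 * Q (q ^ 7) ^ 2 * Q (q ^ 21) ^ 10

lemma X1_q {z : ℂ} (hz : 0 < z.im) : X1 z = xi (qq z) / qq z ^ 2 := by
  have h1 := eta_one z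
  have h3 := eta_mul 3 z
  have h7 := eta_mul 7 z
  have h21 := eta_mul 21 z
  push_cast at h3 h7 h21
  have hq := norm_qq_lt hz
  have e1 := Q_ne hq
  have e21 := Q_ne_pow hq (d := 21) (by norm_num)
  have ht := tt_ne z
  unfold X1 xi
  rw [h1, h3, h7, h21]
  have hq2 : qq z ^ 2 = tt z ^ 48 := by rw [← tt_pow]; ring
  rw [hq2]
  field_simp

lemma W_q {z : ℂ} (hz : 0 < z.im) : W z = om (qq z) / qq z := by
  have g1 := G_mul 1 z
  have g3 := G_mul 3 z
  have g7 := G_mul 7 z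
  have g21 := G_mul 21 z
  push_cast at g1 g3 g7 g21
  rw [one_mul, pow_one] at g1
  have hq := norm_qq_lt hz
  have e1 := Q_ne hq
  have e21 := Q_ne_pow hq (d := 21) (by norm_num)
  have ht := tt_ne z
  unfold W Gs om
  rw [g1, g3, g7, g21, zpow_neg_one, zpow_one, zpow_one, zpow_neg_one]
  have hq2 : qq z = tt z ^ 24 := by rw [← tt_pow]
  have hq3 : (qq z)⁻¹ = (tt z ^ 24)⁻¹ := by rw [← hq2]
  rw [div_eq_mul_inv, hq3]
  field_simp

lemma U_q {z : ℂ} (_hz : 0 < z.im) : U z = qq z ^ 10 * up (qq z) := by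
  have g1 := G_mul 1 z
  have g3 := G_mul 3 z
  have g7 := G_mul 7 z
  have g21 := G_mul 21 z
  push_cast at g1 g3 g7 g21
  rw [one_mul, pow_one] at g1
  unfold U Gs up
  rw [g1, g3, g7, g21, zpow_one, zpow_one]
  norm_cast
  have hq2 : qq z ^ 10 = tt z ^ 240 := by rw [← tt_pow]; ring
  rw [hq2]
  ring

lemma X1_sq (z : ℂ) : X1 z ^ 2 = Gs (-1) 3 1 (-3) z := by
  unfold X1 Gs G
  rw [zpow_neg_one, zpow_one, zpow_neg]
  norm_cast
  simp only [mul_pow, inv_pow]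
  ring

lemma kap21_3 : ∀ a b c d : ZMod 3, a * d - b * (21 * c) = 1 →
    (5 * kap a b (21 * c) d + 1 * kap a (3 * b) (7 * c) d + 1 * kap a (7 * b) (3 * c) d +
      5 * kap a (21 * b) c d = 0) ∧
    (-1 * kap a b (21 * c) d + 3 * kap a (3 * b) (7 * c) d + 1 * kap a (7 * b) (3 * c) d +
      -3 * kap a (21 * b) c d = 0) ∧
    (-1 * kap a b (21 * c) d + 1 * kap a (3 * b) (7 * c) d + 1 * kap a (7 * b) (3 * c) d +
      -1 * kap a (21 * b) c d = 0) := by
  decide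

lemma kap21_4 : ∀ a b c d : ZMod 4, a * d - b * (21 * c) = 1 →
    (5 * kap a b (21 * c) d + 1 * kap a (3 * b) (7 * c) d + 1 * kap a (7 * b) (3 * c) d +
      5 * kap a (21 * b) c d = 0) ∧
    (-1 * kap a b (21 * c) d + 3 * kap a (3 * b) (7 * c) d + 1 * kap a (7 * b) (3 * c) d +
      -3 * kap a (21 * b) c d = 0) ∧
    (-1 * kap a b (21 * c) d + 1 * kap a (3 * b) (7 * c) d + 1 * kap a (7 * b) (3 * c) d +
      -1 * kap a (21 * b) c d = 0) := by
  decide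

/-- the basic transformations under `Γ_0(21)` -/
lemma G_gamma {a b c d : ℤ} (h : a * d - b * (21 * c) = 1) {z : ℂ} (hz : 0 < z.im) :
    0 < ((a * z + b) / (21 * c * z + d) : ℂ).im ∧ (21 * c * z + d : ℂ) ≠ 0 ∧
    G ((a * z + b) / (21 * c * z + d)) = ze ^ (kap a b (21 * c) d) * (21 * c * z + d) * G z ∧
    G (3 * ((a * z + b) / (21 * c * z + d))) =
      ze ^ (kap a (3 * b) (7 * c) d) * (21 * c * z + d) * G (3 * z) ∧
    G (7 * ((a * z + b) / (21 * c * z + d))) =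
      ze ^ (kap a (7 * b) (3 * c) d) * (21 * c * z + d) * G (7 * z) ∧
    G (21 * ((a * z + b) / (21 * c * z + d))) =
      ze ^ (kap a (21 * b) c d) * (21 * c * z + d) * G (21 * z) := by
  have h0 := im_moebius h hz
  have e1 := G_moebius h hz
  have e3 := G_moebius (a := a) (b := 3 * b) (c := 7 * c) (d := d) (by linarith)
    (im_mul hz 3 (by norm_num))
  have e7 := G_moebius (a := a) (b := 7 * b) (c := 3 * c) (d := d) (by linarith)
    (im_mul hz 7 (by norm_num))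
  have e21 := G_moebius (a := a) (b := 21 * b) (c := c) (d := d) (by linarith)
    (im_mul hz 21 (by norm_num))
  push_cast at h0 e1 e3 e7 e21
  refine ⟨h0.1, h0.2, e1, ?_, ?_, ?_⟩
  · have e : (3 : ℂ) * ((a * z + b) / (21 * c * z + d)) =
        (a * (3 * z) + 3 * b) / (7 * c * (3 * z) + d) := by
      rw [← mul_div_assoc]; congr 1 <;> ring
    rw [e, e3]; ring
  · have e : (7 : ℂ) * ((a * z + b) / (21 * c * z + d)) =
        (a * (7 * z) + 7 * b) / (3 * c * (7 * z) + d) := by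
      rw [← mul_div_assoc]; congr 1 <;> ring
    rw [e, e7]; ring
  · have e : (21 : ℂ) * ((a * z + b) / (21 * c * z + d)) =
        (a * (21 * z) + 21 * b) / (c * (21 * z) + d) := by
      rw [← mul_div_assoc]; congr 1 <;> ring
    rw [e, e21]; ring

lemma Gs_gamma (s1 s3 s7 s21 : ℤ) {a b c d : ℤ} (h : a * d - b * (21 * c) = 1) {z : ℂ}
    (hz : 0 < z.im) :
    Gs s1 s3 s7 s21 ((a * z + b) / (21 * c * z + d)) =
      ze ^ (s1 * kap a b (21 * c) d + s3 * kap a (3 * b) (7 * c) d +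
        s7 * kap a (7 * b) (3 * c) d + s21 * kap a (21 * b) c d) *
      (21 * c * z + d) ^ (s1 + s3 + s7 + s21) * Gs s1 s3 s7 s21 z := by
  obtain ⟨-, hj, e1, e3, e7, e21⟩ := G_gamma h hz
  unfold Gs
  rw [e1, e3, e7, e21]
  simp only [mul_zpow, zpow_add₀ hj, zpow_add₀ ze_ne, zpow_mul]
  have : ∀ (x : ℂ) (m n : ℤ), (x ^ m) ^ n = (x ^ n) ^ m := fun x m n => by
    rw [← zpow_mul, ← zpow_mul, mul_comm]
  rw [this ze _ s1, this ze _ s3, this ze _ s7, this ze _ s21]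
  ring

lemma phases {a b c d : ℤ} (h : a * d - b * (21 * c) = 1) :
    (12 : ℤ) ∣ (5 * kap a b (21 * c) d + 1 * kap a (3 * b) (7 * c) d +
      1 * kap a (7 * b) (3 * c) d + 5 * kap a (21 * b) c d) ∧
    (12 : ℤ) ∣ (-1 * kap a b (21 * c) d + 3 * kap a (3 * b) (7 * c) d +
      1 * kap a (7 * b) (3 * c) d + -3 * kap a (21 * b) c d) ∧
    (12 : ℤ) ∣ (-1 * kap a b (21 * c) d + 1 * kap a (3 * b) (7 * c) d +
      1 * kap a (7 * b) (3 * c) d + -1 * kap a (21 * b) c d) := by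
  have h3 := kap21_3 a b c d (by exact_mod_cast congrArg (Int.cast : ℤ → ZMod 3) h)
  have h4 := kap21_4 a b c d (by exact_mod_cast congrArg (Int.cast : ℤ → ZMod 4) h)
  refine ⟨dvd12 ?_ ?_, dvd12 ?_ ?_, dvd12 ?_ ?_⟩ <;> push_cast [cast_kap]
  · exact h3.1
  · exact h4.1
  · exact h3.2.1
  · exact h4.2.1
  · exact h3.2.2
  · exact h4.2.2

/-- invariance of `X1²` -/
lemma X1_sq_gamma {a b c d : ℤ} (h : a * d - b * (21 * c) = 1) {z : ℂ} (hz : 0 < z.im) :
    X1 ((a * z + b) / (21 * c * z + d)) ^ 2 = X1 z ^ 2 := by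
  rw [X1_sq, X1_sq, Gs_gamma _ _ _ _ h hz]
  rw [ze_dvd (phases h).2.1]
  norm_num

/-- invariance of `W` -/
lemma W_gamma {a b c d : ℤ} (h : a * d - b * (21 * c) = 1) {z : ℂ} (hz : 0 < z.im) :
    W ((a * z + b) / (21 * c * z + d)) = W z := by
  unfold W
  rw [Gs_gamma _ _ _ _ h hz]
  rw [ze_dvd (phases h).2.2]
  norm_num

/-- weight twelve invariance of `U` -/
lemma U_gamma {a b c d : ℤ} (h : a * d - b * (21 * c) = 1) {z : ℂ} (hz : 0 < z.im) :
    U ((a * z + b) / (21 * c * z + d)) = (21 * c * z + d) ^ 12 * U z := by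
  unfold U
  rw [Gs_gamma _ _ _ _ h hz]
  rw [ze_dvd (phases h).1]
  norm_num

end Pool.Agent.N402.MF21
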