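import Pool.Agent.N402.MF21.Diff
import Pool.Agent.N402.Dim.D21
import Pool.Agent.N974.Gen.Lat
import Pool.Agent.N974.Gen.New

/-!
The cusp form of level `21`.
-/

set_option autoImplicit false

open UpperHalfPlane MatrixGroups CongruenceSubgroup Filter Topology Asymptotics
open scoped ModularForm Pointwise

namespace Pool.Agent.N402.MF21

open Pool.Agent.W97.TW
open Pool.Agent.W97.MT (qq tt tt_ne qq_ne tt_pow norm_qq norm_qq_lt im_mul z_ne H_open Q_ne Q_ne_pow
  QV iI iI_pos iI_eventually tendsto_qq eq_or_eq_neg tpi_ne hasDerivAt_qq const_of_deriv line_im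
  line_re Rep RepC)
open Pool.Agent.N974.MF (Tr)

/-- the form as a function on the upper half-plane -/
noncomputable def e21 (z : ℍ) : ℂ := ff z

lemma e21_slash {γ : SL(2, ℤ)} (hγ : γ ∈ Gamma0 21) :
    e21 ∣[(2 : ℤ)] γ = e21 := by
  obtain ⟨a, b, c, d, h, rfl⟩ := exists_mkSL γ
  rw [mkSL_mem] at hγ
  obtain ⟨c, rfl⟩ := hγ
  funext z
  have h' : a * d - b * (21 * c) = 1 := by push_cast at h; linarith
  have h1 := ff_gamma h' z.im_pos
  have h0 : (21 * c * z + d : ℂ) ≠ 0 := (G_gamma h' z.im_pos).2.1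
  rw [ModularForm.SL_slash_apply, mkSL_denom]
  unfold e21
  rw [mkSL_smul]
  push_cast
  rw [h1, zpow_neg, show ((21 * c * z + d : ℂ) ^ (2 : ℤ)) = (21 * c * z + d) ^ 2 from zpow_ofNat _ 2,
    mul_comm, ← mul_assoc, inv_mul_cancel₀ (pow_ne_zero 2 h0), one_mul]

lemma e21_holo : MDifferentiable (modelWithCornersSelf ℂ ℂ) (modelWithCornersSelf ℂ ℂ) e21 := by
  rw [UpperHalfPlane.mdifferentiable_iff]
  have h1 : DifferentiableOn ℂ ff {z : ℂ | 0 < z.im} := fun w hw =>
    (ff_diff hw).differentiableWithinAt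
  refine h1.congr fun w hw => ?_
  simp only [Function.comp_apply]
  unfold e21
  rw [ofComplex_apply_of_im_pos hw]

lemma ff_T (j : ℤ) {z : ℂ} (hz : 0 < z.im) : ff (z + j) = ff z := by
  have h := ff_gamma (a := 1) (b := j) (c := 0) (d := 1) (by ring) hz
  have e : ((((1 : ℤ) : ℂ) * z + (j : ℂ)) / (21 * ((0 : ℤ) : ℂ) * z + ((1 : ℤ) : ℂ))) = z + j := by
    push_cast
    ring
  rw [e] at h
  rw [h]
  push_cast
  ring

/-- reduction to the representatives of the cusps -/
theorem red2 {a b c d : ℤ} (h : a * d - b * c = 1) (j e : ℤ)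
    (h14 : (21 : ℤ) ∣ c - e * (d - j * c)) {z : ℂ} (hz : 0 < z.im) :
    ff ((a * z + b) / (c * z + d)) * ((c * z + d) ^ 2)⁻¹ =
      ff ((z + j) / (e * (z + j) + 1)) * ((e * (z + j) + 1) ^ 2)⁻¹ := by
  obtain ⟨c0, hc0⟩ := h14
  have hw : 0 < (z + j).im := by simpa using hz
  have hu := im_moebius (a := 1) (b := 0) (c := e) (d := 1) (by ring) hw
  have hu1 : 0 < ((z + j) / (e * (z + j) + 1)).im := by simpa using hu.1
  have hu2 : (e : ℂ) * (z + j) + 1 ≠ 0 := by simpa using hu.2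
  have h2 := ff_gamma (a := a - e * (b - j * a)) (b := b - j * a) (c := c0) (d := d - j * c)
    (by rw [← hc0]; linear_combination h) hu1
  have hc0' : (21 : ℂ) * c0 = c - e * (d - j * c) := by exact_mod_cast hc0.symm
  rw [hc0'] at h2
  have e1 : ((a - e * (b - j * a) : ℤ) : ℂ) * ((z + j) / (e * (z + j) + 1)) +
      ((b - j * a : ℤ) : ℂ) = (a * z + b) / (e * (z + j) + 1) := by
    rw [eq_div_iff hu2, add_mul, mul_assoc, div_mul_cancel₀ _ hu2]
    push_cast
    ring
  have e2 : ((c : ℂ) - e * (d - j * c)) * ((z + j) / (e * (z + j) + 1)) +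
      ((d - j * c : ℤ) : ℂ) = (c * z + d) / (e * (z + j) + 1) := by
    rw [eq_div_iff hu2, add_mul, mul_assoc, div_mul_cancel₀ _ hu2]
    push_cast
    ring
  rw [e1, e2, div_div_div_cancel_right₀ hu2] at h2
  have h0 : (c : ℂ) * z + d ≠ 0 := (im_moebius h hz).2
  rw [h2]
  field_simp

lemma tends_aff {m : ℝ} (hm : 0 < m) (b : ℂ) (hb : b.im = 0) :
    Tendsto (fun z : ℍ => ff (((z : ℂ) + b) / m)) atImInfty (𝓝 0) := by
  refine QV_ff.tendsto.comp ?_
  unfold iI
  rw [tendsto_comap_iff]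
  have h1 : Tendsto (fun z : ℍ => z.im / m) atImInfty atTop :=
    tendsto_comap.atTop_div_const hm
  refine h1.congr fun z => ?_
  simp only [Function.comp_apply]
  rw [Complex.div_ofReal_im, Complex.add_im, hb, add_zero]
  rfl

lemma e21_zero (γ : SL(2, ℤ)) : IsZeroAtImInfty (e21 ∣[(2 : ℤ)] γ) := by
  obtain ⟨a, b, c, d, h, rfl⟩ := exists_mkSL γ
  obtain ⟨j, e, he, h14⟩ := CP.cusp_reps_int a b c d h
  have key : ∀ z : ℍ, (e21 ∣[(2 : ℤ)] mkSL a b c d h) z =
      ff (((z : ℂ) + j) / (e * (z + j) + 1)) * ((e * ((z : ℂ) + j) + 1) ^ 2)⁻¹ := by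
    intro z
    rw [ModularForm.SL_slash_apply, mkSL_denom]
    unfold e21
    rw [mkSL_smul, zpow_neg, show ((c * z + d : ℂ) ^ (2 : ℤ)) = (c * z + d) ^ 2 from zpow_ofNat _ 2]
    exact red2 h j e h14 z.im_pos
  have hj : ∀ k : ℤ, ((j : ℂ) + k).im = 0 := fun k => by simp
  rcases he with rfl | rfl | rfl | rfl
  · refine (tends_aff one_pos 0 (by simp)).congr fun z => ?_
    rw [key z]
    have e1 : ((z : ℂ) + j) / (((0 : ℤ) : ℂ) * (z + j) + 1) = z + j := by push_cast; ring
    rw [e1, ff_T j z.im_pos]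
    push_cast
    simp
  · have h1 := (tends_aff (m := 21) (by norm_num) ((j : ℂ) + (1 : ℤ)) (hj 1)).mul_const
      (-(21 : ℂ)⁻¹)
    rw [zero_mul] at h1
    refine h1.congr fun z => ?_
    rw [key z]
    set v : ℂ := ((z : ℂ) + j + 1) / 21 with hv
    have hvi : 0 < v.im := by
      have : v.im = z.im / 21 := by
        rw [hv, Complex.div_ofNat_im]
        simp
      rw [this]
      have := z.im_pos
      positivity
    have hv0 := z_ne hvi
    have e1 : ((z : ℂ) + j) / (((1 : ℤ) : ℂ) * (z + j) + 1) = m21 v + ((1 : ℤ) : ℂ) := by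
      have e2 : ((1 : ℤ) : ℂ) * (z + j) + 1 = 21 * v := by rw [hv]; push_cast; ring
      have e3 : (z : ℂ) + j = 21 * v - 1 := by rw [hv]; ring
      rw [e2, e3]
      unfold m21
      push_cast
      field_simp
      ring
    have e2 : ((1 : ℤ) : ℂ) * (z + j) + 1 = 21 * v := by rw [hv]; push_cast; ring
    rw [e1, ff_T 1 (map21.pos v hvi), e2]
    have h2 := ff_m21 hvi
    unfold j21 at h2
    have e4 : ((z : ℂ) + (j + ((1 : ℤ) : ℂ))) / ((21 : ℝ) : ℂ) = v := by
      rw [hv]; push_cast; ring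
    rw [e4]
    have h3 : ff (m21 v) = -ff v * (21 * v ^ 2) := by
      rw [← h2]
      field_simp
    rw [h3]
    field_simp
  · have h1 := (tends_aff (m := 7) (by norm_num) ((j : ℂ) + (-2 : ℤ)) (hj (-2))).mul_const
      ((7 : ℂ)⁻¹)
    rw [zero_mul] at h1
    refine h1.congr fun z => ?_
    rw [key z]
    set v : ℂ := ((z : ℂ) + j - 2) / 7 with hv
    have hvi : 0 < v.im := by
      have : v.im = z.im / 7 := by
        rw [hv, Complex.div_ofNat_im]
        simp
      rw [this]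
      have := z.im_pos
      positivity
    have hv0 := w7_aux hvi
    have e2 : ((3 : ℤ) : ℂ) * (z + j) + 1 = 7 * (3 * v + 1) := by rw [hv]; push_cast; ring
    have e1 : ((z : ℂ) + j) / (((3 : ℤ) : ℂ) * (z + j) + 1) = m7 v := by
      unfold m7
      congr 1
      · rw [hv]; ring
      · rw [hv]; push_cast; ring
    rw [e1, e2]
    have h2 := ff_m7 v hvi
    unfold j7 at h2
    have e4 : ((z : ℂ) + (j + ((-2 : ℤ) : ℂ))) / ((7 : ℝ) : ℂ) = v := by
      rw [hv]; push_cast; ring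
    rw [e4]
    have h3 : ff (m7 v) = ff v * (7 * (3 * v + 1) ^ 2) := by
      rw [← h2]
      field_simp
    rw [h3]
    field_simp
  · have h1 := (tends_aff (m := 3) (by norm_num) ((j : ℂ) + (1 : ℤ)) (hj 1)).mul_const
      (-(3 : ℂ)⁻¹)
    rw [zero_mul] at h1
    refine h1.congr fun z => ?_
    rw [key z]
    set v : ℂ := ((z : ℂ) + j + 1) / 3 with hv
    have hvi : 0 < v.im := by
      have : v.im = z.im / 3 := by
        rw [hv, Complex.div_ofNat_im]
        simp
      rw [this]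
      have := z.im_pos
      positivity
    have hv0 := w3_aux hvi
    have e2 : ((7 : ℤ) : ℂ) * (z + j) + 1 = 3 * (7 * v - 2) := by rw [hv]; push_cast; ring
    have e1 : ((z : ℂ) + j) / (((7 : ℤ) : ℂ) * (z + j) + 1) = m3 v := by
      unfold m3
      congr 1
      · rw [hv]; ring
      · rw [hv]; push_cast; ring
    rw [e1, e2]
    have h2 := ff_m3 v hvi
    unfold j3 at h2
    have e4 : ((z : ℂ) + (j + ((1 : ℤ) : ℂ))) / ((3 : ℝ) : ℂ) = v := by
      rw [hv]; push_cast; ring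
    rw [e4]
    have h3 : ff (m3 v) = -ff v * (3 * (7 * v - 2) ^ 2) := by
      rw [← h2]
      field_simp
    rw [h3]
    field_simp

/-- the cusp form of level `21` -/
noncomputable def f21 : CuspForm (Gamma0 21 : Subgroup (GL (Fin 2) ℝ)) 2 where
  toFun := e21
  slash_action_eq' := by
    rintro _ ⟨γ, hγ, rfl⟩
    exact e21_slash hγ
  holo' := e21_holo
  zero_at_cusps' := by
    intro c hc
    rw [Subgroup.IsArithmetic.isCusp_iff_isCusp_SL2Z] at hc
    rw [OnePoint.isZeroAt_iff_forall_SL2Z hc]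
    intro γ _
    exact e21_zero γ

lemma f21_apply (z : ℍ) : f21 z = ff z := rfl

open N974.Gen (Param Eigen)

lemma gff {z : ℂ} (hz : 0 < z.im) : N974.Gen.ff f21 z = ff z := by
  unfold N974.Gen.ff
  rw [ofComplex_apply_of_im_pos hz]
  rfl

end Pool.Agent.N402.MF21
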